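import Pool.Agent.K7.H28.SY.Fin1

/-!
Forms with singular primitives: conclusion.
-/

set_option autoImplicit false

open Set Filter Topology MeasureTheory
open scoped Manifold ContDiff ENNReal

noncomputable section

namespace Pool.Agent.K7.H28.SY

open Pool.Agent.Y501.SY Pool.Agent.Y484.SY Pool.Agent.Y658.SY

/-- sets of box dimension less than two have two-dimensional Hausdorff measure zero -/
theorem haus_box {d : ℕ} {S : Set (E d)} {C k : ℝ} (hk : k < 2)
    (h : ∀ r : ℝ, 0 < r → r < 1 → ∃ P : Finset (E d), (P.card : ℝ) ≤ C * r ^ (-k) ∧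
      S ⊆ ⋃ y ∈ P, Metric.ball y r) : μH[2] S = 0 := by
  have hrr : ∀ n : ℕ, 0 < 1 / ((n : ℝ) + 2) ∧ 1 / ((n : ℝ) + 2) < 1 := by
    intro n
    have : (0 : ℝ) ≤ n := Nat.cast_nonneg n
    refine ⟨by positivity, ?_⟩
    rw [div_lt_one (by positivity)]
    linarith
  set rr : ℕ → ℝ := fun n => 1 / ((n : ℝ) + 2) with hrrd
  choose P hP1 hP2 using fun n : ℕ => h (rr n) (hrr n).1 (hrr n).2
  have hlim : Tendsto rr atTop (𝓝 0) := by
    have h1 : Tendsto (fun n : ℕ => (n : ℝ) + 2) atTop atTop :=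
      tendsto_atTop_add_const_right _ _ tendsto_natCast_atTop_atTop
    exact tendsto_const_nhds.div_atTop h1
  have hdiam : ∀ (n : ℕ) (y : E d), Metric.ediam (Metric.ball y (rr n)) ≤
      ENNReal.ofReal (2 * rr n) := by
    intro n y
    rw [← Metric.eball_ofReal]
    refine Metric.ediam_eball_le.trans (le_of_eq ?_)
    rw [ENNReal.ofReal_mul (by norm_num)]
    norm_num
  have key := Measure.hausdorffMeasure_le_liminf_sum (ι := fun n => P n) 2 S (l := atTop)
    (fun n => ENNReal.ofReal (2 * rr n)) (by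
      have h1 : Tendsto (fun n => 2 * rr n) atTop (𝓝 (2 * 0)) := hlim.const_mul 2
      rw [mul_zero] at h1
      have := ENNReal.tendsto_ofReal h1
      rwa [ENNReal.ofReal_zero] at this)
    (fun n i => Metric.ball (i : E d) (rr n))
    (Filter.Eventually.of_forall fun n i => hdiam n i)
    (Filter.Eventually.of_forall fun n => by
      intro x hx
      obtain ⟨y, hy, hxy⟩ := mem_iUnion₂.1 (hP2 n hx)
      exact mem_iUnion.2 ⟨⟨y, hy⟩, hxy⟩)
  have hbound : ∀ n : ℕ, ∑ i : P n, Metric.ediam (Metric.ball (i : E d) (rr n)) ^ (2 : ℝ) ≤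
      ENNReal.ofReal (4 * C * (rr n) ^ (2 - k)) := by
    intro n
    have hr := (hrr n).1
    have h1 : ∀ i : P n, Metric.ediam (Metric.ball (i : E d) (rr n)) ^ (2 : ℝ) ≤
        ENNReal.ofReal ((2 * rr n) ^ 2) := by
      intro i
      refine (ENNReal.rpow_le_rpow (hdiam n i) (by norm_num)).trans (le_of_eq ?_)
      rw [ENNReal.ofReal_rpow_of_nonneg (by positivity) (by norm_num)]
      congr 1
      exact_mod_cast Real.rpow_natCast (2 * rr n) 2
    refine (Finset.sum_le_sum fun i _ => h1 i).trans ?_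
    rw [Finset.sum_const, Finset.card_univ, Fintype.card_coe, nsmul_eq_mul]
    have h2 : ((P n).card : ℝ≥0∞) = ENNReal.ofReal ((P n).card : ℝ) := by
      rw [ENNReal.ofReal_natCast]
    rw [h2, ← ENNReal.ofReal_mul (Nat.cast_nonneg _)]
    apply ENNReal.ofReal_le_ofReal
    have h3 : (rr n) ^ (2 - k) = (rr n) ^ (-k) * (rr n) ^ 2 := by
      have : (2 - k) = -k + (2 : ℕ) := by push_cast; ring
      rw [this, Real.rpow_add hr, Real.rpow_natCast]
    rw [h3]
    calc ((P n).card : ℝ) * (2 * rr n) ^ 2 ≤ (C * (rr n) ^ (-k)) * (2 * rr n) ^ 2 := by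
          gcongr
          exact hP1 n
      _ = 4 * C * ((rr n) ^ (-k) * (rr n) ^ 2) := by ring
  have hlim2 : Tendsto (fun n => ENNReal.ofReal (4 * C * (rr n) ^ (2 - k))) atTop (𝓝 0) := by
    have h2k : 0 < 2 - k := by linarith
    have h1 : Tendsto (fun n => (rr n) ^ (2 - k)) atTop (𝓝 0) := by
      have := (Real.continuousAt_rpow_const 0 (2 - k) (Or.inr h2k.le)).tendsto
      rw [Real.zero_rpow h2k.ne'] at this
      exact this.comp hlim
    have h2 : Tendsto (fun n => 4 * C * (rr n) ^ (2 - k)) atTop (𝓝 (4 * C * 0)) :=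
      h1.const_mul _
    rw [mul_zero] at h2
    have := ENNReal.tendsto_ofReal h2
    rwa [ENNReal.ofReal_zero] at this
  have h3 : liminf (fun n => ∑ i : P n, Metric.ediam (Metric.ball (i : E d) (rr n)) ^ (2 : ℝ))
      atTop ≤ liminf (fun n => ENNReal.ofReal (4 * C * (rr n) ^ (2 - k))) atTop :=
    liminf_le_liminf (Filter.Eventually.of_forall hbound)
  rw [hlim2.liminf_eq] at h3
  exact le_antisymm (key.trans h3) zero_le

section

variable {d : ℕ} {X : Type} [TopologicalSpace X] [ChartedSpace (E d) X]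

/-- the points of `K` and the points at which `σ` does not tame `J` -/
def Bad (σ : Form d X 2) (J : End d X) (K : Set X) : Set X := {x | x ∈ K ∨ ¬ TamesAt σ J x}

variable [IsManifold (𝓡 d) ∞ X]

omit [IsManifold (𝓡 d) ∞ X] in
theorem nm_pos {m : ℕ} {F : X → E m}
    (hFi : ∀ x, Function.Injective (mfderiv (𝓡 d) (𝓡 m) F x)) {x : X}
    {v : TangentSpace (𝓡 d) x} (hv : v ≠ 0) : 0 < nm F x v := by
  refine lt_of_le_of_ne (norm_nonneg _) fun h => hv ?_
  have h2 : (mfderiv (𝓡 d) (𝓡 m) F x v : E m) = 0 := norm_eq_zero.1 h.symm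
  apply hFi x
  rw [map_zero]
  exact h2

theorem mainSP [CompactSpace X] [T2Space X] (hd : 1 ≤ d) {J : End d X}
    (hJ : IsAlmostComplex J) {K : Set X} (hK : IsClosed K) {β : Form d X 1}
    {σ₀ σ : Form d X 2} (hβ : SmoothOff β K) (hσ : SmoothOff σ K) (hσ₀ : IsSmooth σ₀)
    (hσ₀c : IsClosedForm σ₀) (hD : EqOff σ σ₀ β K) {k q : ℝ} (hk : k < 2)
    (hkq : k + q < 1) (hbox : Box d K k) (hgrow : Grow β K q)
    (hpos : ∀ x, x ∉ K → ∀ v : TangentSpace (𝓡 d) x, 0 ≤ σ x ![v, J x v])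
    (hsmall : ∀ z ∈ Bad σ J K, ¬ connectedComponentIn (Bad σ J K) z ⊆ K →
      ThinAt2 0 0 J (connectedComponentIn (Bad σ J K) z) z) :
    ∃ (α : Form d X 1) (ρ : Form d X 2), IsSmooth α ∧ IsSmooth ρ ∧ IsD α ρ ∧
      IsSmooth (σ₀ + ρ) ∧ IsClosedForm (σ₀ + ρ) ∧ ∀ x, TamesAt (σ₀ + ρ) J x := by
  classical
  obtain ⟨m, F, hF, -, hFi⟩ := exists_embedding_euclidean_of_compact (I := 𝓡 d) (M := X)
  have hI := Pool.Agent.Y44.SY.t_IMM
  have hQ := Pool.Agent.Y44.SY.t_QB
  -- the bad set is closed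
  have hbc : (Bad σ J K)ᶜ = Kᶜ ∩ {x | UTAt σ J K x} := by
    ext x
    constructor
    · intro hx
      have h1 : x ∉ K := fun h => hx (Or.inl h)
      have h2 : TamesAt σ J x := by
        by_contra h
        exact hx (Or.inr h)
      exact ⟨h1, ut_of_tames hJ hK hσ h1 h2⟩
    · rintro ⟨h1, h2⟩ (h3 | h3)
      · exact h1 h3
      · apply h3
        obtain ⟨c, hc, hev⟩ := (UTAt_iff hI hF hFi σ J K x).1 h2
        intro v hv
        have h4 := hev.self_of_nhds h1 v
        have h5 := nm_pos hFi hv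
        exact lt_of_lt_of_le (by positivity) h4
  have hBc : IsClosed (Bad σ J K) := by
    rw [← isOpen_compl_iff, hbc]
    exact hK.isOpen_compl.inter (isOpen_UTAt hI hF hFi σ J K)
  have hKB : K ⊆ Bad σ J K := fun x hx => Or.inl hx
  have hne : ∃ v : E d, v ≠ 0 := by
    have : Nontrivial (E d) := by
      haveI : Nonempty (Fin d) := ⟨⟨0, hd⟩⟩
      infer_instance
    exact exists_ne 0
  have hD2 : D2 (0 : Form d X 2) 0 J (Bad σ J K) = Bad σ J K := by
    apply Subset.antisymm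
    · exact fun x hx => hx.1
    · intro x hx
      obtain ⟨v, hv⟩ := hne
      exact ⟨hx, v, hv, rfl, rfl⟩
  obtain ⟨αθ, θ, hpair, hθ⟩ := level2 Pool.Agent.Y484.SY.t_GEN Pool.Agent.Y108.SY.t_PERT2
    Pool.Agent.Y925.SY.t_PLANAR hJ (σ := 0) (θ := 0) IsSmooth.zero IsSmooth.zero hBc (by
      rw [hD2]
      intro z hz
      by_cases hzK : connectedComponentIn (Bad σ J K) z ⊆ K
      · have hzK' : z ∈ K := hzK (mem_connectedComponentIn hz)
        refine SmallAt2.thinAt2 hJ (Or.inl ?_)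
        obtain ⟨N, hN, C, hcov⟩ := hbox z hzK'
        refine ⟨N, hN, ?_⟩
        refine measure_mono_null (image_mono (inter_subset_inter_left _
          (inter_subset_inter_left _ hzK))) (haus_box hk hcov)
      · exact hsmall z hz hzK)
  obtain ⟨hα, hηs, hαη, hηc⟩ := hpair.props Pool.Agent.Y484.SY.t_GEN
  have hθt : ∀ x ∈ Bad σ J K, TamesAt θ J x := fun x hx v hv => hθ x hx v hv rfl rfl
  -- a neighbourhood of the bad set
  have hW₁ : IsOpen {x | ∀ᶠ y in 𝓝 x, TamesAt θ J y} := isOpen_setOfPred_eventually_nhds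
  have hBW : Bad σ J K ⊆ {x | ∀ᶠ y in 𝓝 x, TamesAt θ J y} := fun x hx =>
    TamesAt.nhds Pool.Agent.Y455.SY.t_PERT hJ hηs (hθt x hx)
  obtain ⟨W, hWo, hBW2, hWcl⟩ := normal_exists_closure_subset hBc hW₁ hBW
  obtain ⟨ε₁, hε₁, hp1⟩ := unif (isClosed_closure (s := W)).isCompact
    (fun ε y => ∀ s : ℝ, 0 < s → s ≤ ε → y ∉ (∅ : Set X) →
      ∀ v : TangentSpace (𝓡 d) y, ε * s * nm F y v ^ 2 ≤ ((0 : Form d X 2) + s • θ) y ![v, J y v])
    (fun ε ε' y hle hp s hs hsε hy v => by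
      refine le_trans ?_ (hp s hs (hsε.trans hle) hy v)
      exact mul_le_mul_of_nonneg_right (mul_le_mul_of_nonneg_right hle hs.le) (sq_nonneg _))
    (fun x hx => Pool.Agent.Y929.SY.pos_near hI hQ F hF hFi J hJ 0 θ ∅ hηs
      (fun x _ v => le_of_eq rfl) x (Or.inr (hWcl hx).self_of_nhds))
  obtain ⟨ε₂, hε₂, hp2⟩ := unif (isCompact_univ (X := X))
    (fun ε y => ∀ s : ℝ, 0 < s → s ≤ ε → y ∉ K →
      ∀ v : TangentSpace (𝓡 d) y, ε * s * nm F y v ^ 2 ≤ (σ + s • θ) y ![v, J y v])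
    (fun ε ε' y hle hp s hs hsε hy v => by
      refine le_trans ?_ (hp s hs (hsε.trans hle) hy v)
      exact mul_le_mul_of_nonneg_right (mul_le_mul_of_nonneg_right hle hs.le) (sq_nonneg _))
    (fun x _ => Pool.Agent.Y929.SY.pos_near hI hQ F hF hFi J hJ σ θ K hηs hpos x (by
      by_cases hx : x ∈ Bad σ J K
      · exact Or.inr (hθt x hx)
      · have h1 : x ∈ (Bad σ J K)ᶜ := hx
        rw [hbc] at h1
        exact Or.inl h1.2))
  set s := min ε₁ ε₂ with hs
  have hs0 : 0 < s := lt_min hε₁ hε₂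
  set δ := s ^ 2 / 2 with hδ
  have hδ0 : 0 < δ := by positivity
  obtain ⟨α, η, χ, g1, g2, g3, g4, g5, g6, g7, g8⟩ := approx hF hFi hJ hK hβ hσ hσ₀ hD hk hkq
    hbox hgrow hWo (hKB.trans hBW2) hδ0
  have hρ : IsSmooth (η + s • θ) := g2.add (hηs.smul s)
  have hDρ : IsD (α + s • αθ) (η + s • θ) := g3.add (hαη.smul s) g1 (hα.smul s)
  refine ⟨α + s • αθ, η + s • θ, g1.add (hα.smul s), hρ, hDρ, hσ₀.add hρ, ?_, ?_⟩
  · have hηcl : IsClosedForm η := by
      intro U φ hU hφ p hp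
      have h1 : pb φ η =ᶠ[𝓝 p] extDeriv (pb φ α) := by
        filter_upwards [hU.mem_nhds hp] with y hy
        exact (g3 U φ hU hφ y hy).symm
      rw [h1.extDeriv_eq, extDeriv_extDeriv_apply (r := ∞)
        ((g1 U φ hU hφ).contDiffAt (hU.mem_nhds hp)) two_le]
      rfl
    have h1 : IsClosedForm (η + s • θ) := by
      have h2 := hηcl.add (hηc.smul s) g2 (hηs.smul s)
      have h3 : (0 : Form d X 3) + s • (0 : Form d X 3) = 0 := by rw [smul_zero, add_zero]
      rw [h3] at h2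
      exact h2
    have h2 := hσ₀c.add h1 hσ₀ hρ
    rwa [add_zero] at h2
  · intro x v hv
    have hval : (σ₀ + (η + s • θ)) x ![v, J x v] = (σ₀ + η) x ![v, J x v] +
        s * θ x ![v, J x v] := by
      change σ₀ x ![v, J x v] + (η x ![v, J x v] + s * θ x ![v, J x v]) =
        (σ₀ x ![v, J x v] + η x ![v, J x v]) + s * θ x ![v, J x v]
      ring
    rw [hval]
    have h8 := g8 x v
    have hn := nm_pos hFi hv
    have hn2 : 0 < nm F x v ^ 2 := by positivity
    have hfin : 0 < δ * nm F x v ^ 2 := by positivity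
    have hsδ : s * s * nm F x v ^ 2 = 2 * (δ * nm F x v ^ 2) := by rw [hδ]; ring
    by_cases hxW : x ∈ W
    · have h1 := hp1 x (subset_closure hxW) s hs0 (min_le_left _ _) (notMem_empty x) v
      have h2 : ((0 : Form d X 2) + s • θ) x ![v, J x v] = s * θ x ![v, J x v] := by
        change (0 : ℝ) + s * θ x ![v, J x v] = _
        ring
      rw [h2] at h1
      have h3 : s * s * nm F x v ^ 2 ≤ ε₁ * s * nm F x v ^ 2 := by
        gcongr
        exact min_le_left _ _
      have h4 : 0 ≤ χ x * σ x ![v, J x v] := by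
        by_cases hxK : x ∈ K
        · rw [g7 x hxK, zero_mul]
        · exact mul_nonneg (g4 x) (hpos x hxK v)
      linarith
    · have hxK : x ∉ K := fun h => hxW (hBW2 (hKB h))
      have h1 := hp2 x (mem_univ x) s hs0 (min_le_right _ _) hxK v
      have h2 : (σ + s • θ) x ![v, J x v] = σ x ![v, J x v] + s * θ x ![v, J x v] := rfl
      rw [h2] at h1
      have h3 : s * s * nm F x v ^ 2 ≤ ε₂ * s * nm F x v ^ 2 := by
        gcongr
        exact min_le_right _ _
      rw [g6 x hxW, one_mul] at h8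
      linarith

end

end Pool.Agent.K7.H28.SY
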