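import Pool.Agent.Y658.SY.Prod

/-!
A one-form on Euclidean space whose exterior derivative is positive on the complex lines of a
constant complex structure.
-/

set_option autoImplicit false

open Set Filter Topology
open scoped Manifold ContDiff

noncomputable section

namespace Pool.Agent.K7.H28.SY

open Pool.Agent.Y501.SY Pool.Agent.Y484.SY Pool.Agent.Y658.SY

variable {d : ℕ}

/-- the inner product made invariant under `L` -/
def BJ (L : E d →L[ℝ] E d) (u w : E d) : ℝ := inner ℝ u w + inner ℝ (L u) (L w)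

theorem BJ_comm (L : E d →L[ℝ] E d) (u w : E d) : BJ L u w = BJ L w u := by
  unfold BJ
  rw [real_inner_comm u w, real_inner_comm (L u) (L w)]

theorem BJ_self (L : E d →L[ℝ] E d) (u : E d) : BJ L u u = ‖u‖ ^ 2 + ‖L u‖ ^ 2 := by
  unfold BJ
  rw [real_inner_self_eq_norm_sq, real_inner_self_eq_norm_sq]

theorem BJ_nonneg (L : E d →L[ℝ] E d) (u : E d) : 0 ≤ BJ L u u := by
  rw [BJ_self]; positivity

theorem le_BJ (L : E d →L[ℝ] E d) (u : E d) : ‖u‖ ^ 2 ≤ BJ L u u := by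
  rw [BJ_self]
  have : 0 ≤ ‖L u‖ ^ 2 := by positivity
  linarith

theorem BJ_le {L : E d →L[ℝ] E d} {M : ℝ} (hM : ‖L‖ ≤ M) (u : E d) :
    BJ L u u ≤ (1 + M ^ 2) * ‖u‖ ^ 2 := by
  rw [BJ_self]
  have h1 : ‖L u‖ ≤ M * ‖u‖ := (L.le_opNorm u).trans (by gcongr)
  have h2 : ‖L u‖ ^ 2 ≤ (M * ‖u‖) ^ 2 := by gcongr
  nlinarith

theorem BJ_add_left (L : E d →L[ℝ] E d) (u v w : E d) :
    BJ L (u + v) w = BJ L u w + BJ L v w := by
  unfold BJ
  rw [map_add, inner_add_left, inner_add_left]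
  ring

theorem BJ_smul_left (L : E d →L[ℝ] E d) (c : ℝ) (u w : E d) :
    BJ L (c • u) w = c * BJ L u w := by
  unfold BJ
  rw [map_smul, real_inner_smul_left, real_inner_smul_left]
  ring

theorem BJ_add_right (L : E d →L[ℝ] E d) (u v w : E d) :
    BJ L u (v + w) = BJ L u v + BJ L u w := by
  rw [BJ_comm, BJ_add_left, BJ_comm L v, BJ_comm L w]

theorem BJ_smul_right (L : E d →L[ℝ] E d) (c : ℝ) (u w : E d) :
    BJ L u (c • w) = c * BJ L u w := by
  rw [BJ_comm, BJ_smul_left, BJ_comm]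

theorem BJ_LL {L : E d →L[ℝ] E d} (hL : ∀ u, L (L u) = -u) (u w : E d) :
    BJ L (L u) (L w) = BJ L u w := by
  unfold BJ
  rw [hL, hL, inner_neg_neg]
  ring

theorem BJ_self_L {L : E d →L[ℝ] E d} (hL : ∀ u, L (L u) = -u) (u : E d) :
    BJ L u (L u) = 0 := by
  unfold BJ
  rw [hL, inner_neg_right, real_inner_comm]
  ring

theorem BJ_bessel {L : E d →L[ℝ] E d} (hL : ∀ u, L (L u) = -u) (z u : E d) :
    BJ L z u ^ 2 + BJ L z (L u) ^ 2 ≤ BJ L z z * BJ L u u := by
  set n := BJ L u u with hn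
  set a := BJ L z u with ha
  set b := BJ L z (L u) with hb
  have h0 : BJ L (n • z + ((-a) • u + (-b) • L u)) (n • z + ((-a) • u + (-b) • L u)) =
      n ^ 2 * BJ L z z - n * (a ^ 2 + b ^ 2) := by
    simp only [BJ_add_left, BJ_add_right, BJ_smul_left, BJ_smul_right]
    rw [BJ_self_L hL, BJ_comm L (L u) u, BJ_self_L hL, BJ_LL hL, BJ_comm L u z,
      BJ_comm L (L u) z, ← hn, ← ha, ← hb]
    ring
  have h1 := BJ_nonneg L (n • z + ((-a) • u + (-b) • L u))
  rw [h0] at h1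
  have hn0 : 0 ≤ n := BJ_nonneg L u
  rcases hn0.eq_or_lt with h | h
  · have hu : u = 0 := by
      have := le_BJ L u
      rw [← hn, ← h] at this
      have h3 : ‖u‖ = 0 := by
        have := norm_nonneg u
        nlinarith
      exact norm_eq_zero.1 h3
    have ha0 : a = 0 := by rw [ha, hu]; unfold BJ; simp
    have hb0 : b = 0 := by rw [hb, hu]; unfold BJ; simp
    rw [ha0, hb0, ← h]
    simp
  · have h2 : 0 ≤ n * (n * BJ L z z - (a ^ 2 + b ^ 2)) := by nlinarith
    have h3 : 0 ≤ n * BJ L z z - (a ^ 2 + b ^ 2) := nonneg_of_mul_nonneg_right h2 h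
    nlinarith

theorem BJ_cs {L : E d →L[ℝ] E d} (hL : ∀ u, L (L u) = -u) (z u : E d) :
    |BJ L z u| ≤ √(BJ L z z) * √(BJ L u u) := by
  rw [← Real.sqrt_mul (BJ_nonneg L z), ← Real.sqrt_sq_eq_abs]
  apply Real.sqrt_le_sqrt
  have := BJ_bessel hL z u
  have h2 : 0 ≤ BJ L z (L u) ^ 2 := by positivity
  linarith

/-- the linear form `u ↦ - 2 BJ z (L u)` -/
def Gf (L : E d →L[ℝ] E d) : E d →L[ℝ] (E d →L[ℝ] ℝ) :=
  LinearMap.toContinuousLinearMap
    { toFun := fun z => (-2 : ℝ) • ((innerSL ℝ z).comp L - innerSL ℝ (L z))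
      map_add' := fun z w => by
        ext u
        change (-2 : ℝ) * (inner ℝ (z + w) (L u) - inner ℝ (L (z + w)) u) =
          (-2 : ℝ) * (inner ℝ z (L u) - inner ℝ (L z) u) +
          (-2 : ℝ) * (inner ℝ w (L u) - inner ℝ (L w) u)
        rw [map_add, inner_add_left, inner_add_left]
        ring
      map_smul' := fun c z => by
        ext u
        change (-2 : ℝ) * (inner ℝ (c • z) (L u) - inner ℝ (L (c • z)) u) =
          c * ((-2 : ℝ) * (inner ℝ z (L u) - inner ℝ (L z) u))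
        rw [map_smul, real_inner_smul_left, real_inner_smul_left]
        ring }

theorem Gf_apply {L : E d →L[ℝ] E d} (hL : ∀ u, L (L u) = -u) (z u : E d) :
    Gf L z u = -2 * BJ L z (L u) := by
  unfold BJ
  rw [hL, inner_neg_right]
  change (-2 : ℝ) * (inner ℝ z (L u) - inner ℝ (L z) u) = _
  ring

/-- the one-form `- 2 h(|z|^2) BJ z (L ·)` with `z = p - y` -/
def alp (L : E d →L[ℝ] E d) (h : ℝ → ℝ) (y p : E d) : (E d) [⋀^Fin 1]→L[ℝ] ℝ :=
  h (BJ L (p - y) (p - y)) • one (Gf L (p - y))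

theorem hasFDerivAt_BJ (L : E d →L[ℝ] E d) (y p : E d) :
    ∃ S : E d →L[ℝ] ℝ, HasFDerivAt (fun p => BJ L (p - y) (p - y)) S p ∧
      ∀ u, S u = 2 * BJ L (p - y) u := by
  have h1 : HasFDerivAt (fun p : E d => p - y) (ContinuousLinearMap.id ℝ (E d)) p :=
    (hasFDerivAt_id p).sub_const y
  have h2 := h1.norm_sq
  have h3 : HasFDerivAt (fun p : E d => L (p - y)) L p := by
    have := L.hasFDerivAt.comp p h1
    exact this
  have h4 := h3.norm_sq
  refine ⟨_, (h2.add h4).congr_of_eventuallyEq (Filter.Eventually.of_forall fun q => ?_),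
    fun u => ?_⟩
  · exact BJ_self L (q - y)
  · change (2 : ℕ) • (inner ℝ (p - y) u) + (2 : ℕ) • (inner ℝ (L (p - y)) (L u)) = _
    unfold BJ
    rw [nsmul_eq_mul, nsmul_eq_mul]
    push_cast
    ring

theorem contDiff_BJ (L : E d →L[ℝ] E d) (y : E d) :
    ContDiff ℝ ∞ (fun p => BJ L (p - y) (p - y)) := by
  have h1 : (fun p => BJ L (p - y) (p - y)) = fun p => ‖p - y‖ ^ 2 + ‖L (p - y)‖ ^ 2 := by
    funext p
    exact BJ_self L (p - y)
  rw [h1]
  have h2 : ContDiff ℝ ∞ (fun p : E d => p - y) := contDiff_id.sub contDiff_const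
  exact (h2.norm_sq ℝ).add ((L.contDiff.comp h2).norm_sq ℝ)

theorem contDiff_alp (L : E d →L[ℝ] E d) {h : ℝ → ℝ}
    (hh : ∀ s, 0 ≤ s → ContDiffAt ℝ ∞ h s) (y : E d) : ContDiff ℝ ∞ (alp L h y) := by
  unfold alp
  have h2 : ContDiff ℝ ∞ (fun p : E d => p - y) := contDiff_id.sub contDiff_const
  have h3 : ContDiff ℝ ∞ (fun p => h (BJ L (p - y) (p - y))) := by
    rw [contDiff_iff_contDiffAt]
    intro p
    exact (hh _ (BJ_nonneg L (p - y))).comp p (contDiff_BJ L y).contDiffAt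
  have h4 : ContDiff ℝ ∞ (fun p => one (Gf L (p - y))) :=
    (ContinuousAlternatingMap.ofSubsingletonLIE (𝕜 := ℝ) (E := E d) (F := ℝ)
      (0 : Fin 1)).contDiff.comp ((Gf L).contDiff.comp h2)
  exact h3.smul h4

/-- the exterior derivative of a linear one-form -/
theorem ext_lin (G : E d →L[ℝ] (E d →L[ℝ] ℝ)) (y p u w : E d) :
    extDeriv (fun p => one (G (p - y))) p ![u, w] = G u w - G w u := by
  have h1 : HasFDerivAt (fun p : E d => p - y) (ContinuousLinearMap.id ℝ (E d)) p :=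
    (hasFDerivAt_id p).sub_const y
  have h3 : HasFDerivAt (fun p : E d => G (p - y)) G p := by
    have := G.hasFDerivAt.comp p h1
    exact this
  have h4 := ((ContinuousAlternatingMap.ofSubsingletonLIE (𝕜 := ℝ) (E := E d) (F := ℝ)
      (0 : Fin 1)).hasFDerivAt.comp p h3).fderiv
  unfold extDeriv
  have h5 : fderiv ℝ (fun p => one (G (p - y))) p =
      ((ContinuousAlternatingMap.ofSubsingletonLIE (𝕜 := ℝ) (E := E d) (F := ℝ)
      (0 : Fin 1)).toContinuousLinearEquiv.toContinuousLinearMap).comp G := h4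
  rw [h5, ContinuousAlternatingMap.alternatizeUncurryFin_apply, Fin.sum_univ_two]
  change (-1 : ℤ) ^ ((0 : Fin 2) : ℕ) • (G u w) + (-1 : ℤ) ^ ((1 : Fin 2) : ℕ) • (G w u) = _
  simp
  ring

theorem ext_alp {L : E d →L[ℝ] E d} (hL : ∀ u, L (L u) = -u) {h : ℝ → ℝ} {h' : ℝ} {y p : E d}
    (hh : HasDerivAt h h' (BJ L (p - y) (p - y))) (u w : E d) :
    extDeriv (alp L h y) p ![u, w] =
      -4 * h' * (BJ L (p - y) u * BJ L (p - y) (L w) - BJ L (p - y) w * BJ L (p - y) (L u)) -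
        4 * h (BJ L (p - y) (p - y)) * BJ L u (L w) := by
  obtain ⟨S, hS, hSu⟩ := hasFDerivAt_BJ L y p
  have h1 : HasFDerivAt (fun p => h (BJ L (p - y) (p - y))) (h' • S) p :=
    hh.comp_hasFDerivAt p hS
  have h2 : DifferentiableAt ℝ (fun p => one (Gf L (p - y))) p := by
    have h2 : ContDiff ℝ ∞ (fun p : E d => p - y) := contDiff_id.sub contDiff_const
    have h4 : ContDiff ℝ ∞ (fun p => one (Gf L (p - y))) :=
      (ContinuousAlternatingMap.ofSubsingletonLIE (𝕜 := ℝ) (E := E d) (F := ℝ)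
        (0 : Fin 1)).contDiff.comp ((Gf L).contDiff.comp h2)
    exact h4.contDiffAt.differentiableAt (by simp)
  have h3 := ext_prod h1.differentiableAt h2
  have h4 : alp L h y = fun p => h (BJ L (p - y) (p - y)) • one (Gf L (p - y)) := rfl
  rw [h4, h3, h1.fderiv]
  change wedge1 (h' • S) (one (Gf L (p - y))) ![u, w] +
    h (BJ L (p - y) (p - y)) * extDeriv (fun p => one (Gf L (p - y))) p ![u, w] = _
  rw [wedge1_apply, ext_lin, Gf_apply hL, Gf_apply hL]
  change (h' * S u) * (Gf L (p - y) w) - (h' * S w) * (Gf L (p - y) u) + _ = _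
  rw [Gf_apply hL, Gf_apply hL, hSu, hSu]
  have h5 : BJ L w (L u) = - BJ L u (L w) := by
    have h6 := BJ_LL hL w (L u)
    rw [hL] at h6
    rw [← h6]
    have h7 : BJ L (L w) (-u) = - BJ L (L w) u := by
      have := BJ_smul_right L (-1) (L w) u
      rw [neg_one_smul, neg_one_mul] at this
      exact this
    rw [h7, BJ_comm]
  rw [h5]
  ring

end Pool.Agent.K7.H28.SY
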