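import Pool.Agent.K7.H28.SY.Ext0

/-!
The product of a one-form with singularities and of a function vanishing near them.
-/

set_option autoImplicit false

open Set Filter Topology
open scoped Manifold ContDiff

noncomputable section

namespace Pool.Agent.K7.H28.SY

open Pool.Agent.Y501.SY Pool.Agent.Y484.SY Pool.Agent.Y658.SY

variable {d : ℕ} {X : Type} [TopologicalSpace X] [ChartedSpace (E d) X]
  [IsManifold (𝓡 d) ∞ X]

/-- `σ = σ₀ + dβ` off `K` -/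
def EqOff (σ σ₀ : Form d X 2) (β : Form d X 1) (K : Set X) : Prop :=
  ∀ (U : Set (E d)) (φ : E d → X), IsOpen U → ContMDiffOn (𝓡 d) (𝓡 d) ∞ φ U →
    (∀ p ∈ U, φ p ∉ K) → ∀ p ∈ U, pb φ σ p = pb φ σ₀ p + extDeriv (pb φ β) p

omit [IsManifold (𝓡 d) ∞ X] in
theorem prodD_apply (u : X → ℝ) (β : Form d X 1) (ρ : Form d X 2) (x : X)
    (v w : TangentSpace (𝓡 d) x) : prodD u β ρ x ![v, w] =
      dd u x v * β x ![w] - dd u x w * β x ![v] + u x * ρ x ![v, w] := by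
  have h := wedge1_apply (V := E d) (dd u x) (β x) ![v, w]
  have ev : (fun _ : Fin 1 => v) = ![v] := by
    funext i
    rw [Subsingleton.elim i 0]
    rfl
  have ew : (fun _ : Fin 1 => w) = ![w] := by
    funext i
    rw [Subsingleton.elim i 0]
    rfl
  refine (congrArg (fun t => t + u x * ρ x ![v, w]) h).trans ?_
  show dd u x v * β x (fun _ : Fin 1 => w) - dd u x w * β x (fun _ : Fin 1 => v) +
    u x * ρ x ![v, w] = _
  rw [ev, ew]

omit [IsManifold (𝓡 d) ∞ X] in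
theorem prodD_zero {u : X → ℝ} {O : Set X} (hO : IsOpen O) (hu0 : ∀ x ∈ O, u x = 0)
    (β : Form d X 1) (ρ : Form d X 2) {x : X} (hx : x ∈ O) : prodD u β ρ x = 0 := by
  have h1 : ∀ v : TangentSpace (𝓡 d) x, dd (d := d) u x v = 0 := fun v =>
    dd_zero_of_near (c := 0) (by
      filter_upwards [hO.mem_nhds hx] with y hy
      exact hu0 y hy) v
  ext v
  have hv : v = ![v 0, v 1] := by
    funext i
    fin_cases i <;> rfl
  rw [hv, prodD_apply, h1, h1, hu0 x hx]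
  change 0 * _ - 0 * _ + 0 * _ = (0 : ℝ)
  ring

theorem prod_off {K : Set X} (hK : IsClosed K) {u : X → ℝ} (hu : SmoothFun (d := d) u)
    {β : Form d X 1} {σ₀ σ : Form d X 2} (hβ : SmoothOff β K) (hσ : SmoothOff σ K)
    (hσ₀ : IsSmooth σ₀) (hD : EqOff σ σ₀ β K) {O : Set X} (hO : IsOpen O) (hKO : K ⊆ O)
    (hu0 : ∀ x ∈ O, u x = 0) :
    IsSmooth (fun x => u x • β x : Form d X 1) ∧ IsSmooth (prodD u β (σ - σ₀)) ∧
      IsD (fun x => u x • β x : Form d X 1) (prodD u β (σ - σ₀)) := by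
  -- near the points which are sent into `O`
  have near1 : ∀ (U : Set (E d)) (φ : E d → X), IsOpen U → ContMDiffOn (𝓡 d) (𝓡 d) ∞ φ U →
      ∀ p ∈ U, φ p ∈ O → pb φ (fun x => u x • β x : Form d X 1) =ᶠ[𝓝 p] 0 ∧
        pb φ (prodD u β (σ - σ₀)) =ᶠ[𝓝 p] 0 := by
    intro U φ hU hφ p hp hpO
    have hU' : IsOpen (U ∩ φ ⁻¹' O) := hφ.continuousOn.isOpen_inter_preimage hU hO
    refine ⟨?_, ?_⟩
    · filter_upwards [hU'.mem_nhds ⟨hp, hpO⟩] with q hq
      unfold pb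
      simp only [hu0 (φ q) hq.2, zero_smul]
      rfl
    · filter_upwards [hU'.mem_nhds ⟨hp, hpO⟩] with q hq
      unfold pb
      rw [prodD_zero hO hu0 β (σ - σ₀) hq.2]
      rfl
  -- near the other points
  have near2 : ∀ (U : Set (E d)) (φ : E d → X), IsOpen U → ContMDiffOn (𝓡 d) (𝓡 d) ∞ φ U →
      ∀ p ∈ U, φ p ∉ K →
        ContDiffAt ℝ ∞ (pb φ (fun x => u x • β x : Form d X 1)) p ∧
        ContDiffAt ℝ ∞ (pb φ (prodD u β (σ - σ₀))) p ∧
        extDeriv (pb φ (fun x => u x • β x : Form d X 1)) p = pb φ (prodD u β (σ - σ₀)) p := by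
    intro U φ hU hφ p hp hpK
    have hU' : IsOpen (U ∩ φ ⁻¹' Kᶜ) :=
      hφ.continuousOn.isOpen_inter_preimage hU hK.isOpen_compl
    have hpU : p ∈ U ∩ φ ⁻¹' Kᶜ := ⟨hp, hpK⟩
    have hφ' := hφ.mono (inter_subset_left : U ∩ φ ⁻¹' Kᶜ ⊆ U)
    have hav : ∀ q ∈ U ∩ φ ⁻¹' Kᶜ, φ q ∉ K := fun q hq => hq.2
    have hb := hβ _ φ hU' hφ' hav
    have hs := hσ _ φ hU' hφ' hav
    have hs0 := hσ₀ _ φ hU' hφ'
    have hF : ContDiffOn ℝ ∞ (u ∘ φ) (U ∩ φ ⁻¹' Kᶜ) := comp_smooth hφ' hu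
    have hsub : ContDiffOn ℝ ∞ (pb φ (σ - σ₀)) (U ∩ φ ⁻¹' Kᶜ) := by
      have : pb φ (σ - σ₀) = fun q => pb φ σ q - pb φ σ₀ q := rfl
      rw [this]
      exact hs.sub hs0
    have hd2 : ContDiffOn ℝ ∞ (pb φ (prodD u β (σ - σ₀))) (U ∩ φ ⁻¹' Kᶜ) := by
      refine ContDiffOn.congr ?_ fun q hq => pb_prodD hU' hφ' hu hq
      exact (smooth_wedge1 (hF.fderiv_of_isOpen hU' (by simp)) hb).add (hF.smul hsub)
    refine ⟨(hF.smul hb).contDiffAt (hU'.mem_nhds hpU), hd2.contDiffAt (hU'.mem_nhds hpU), ?_⟩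
    have hF' : DifferentiableAt ℝ (u ∘ φ) p :=
      (hF.contDiffAt (hU'.mem_nhds hpU)).differentiableAt (by simp)
    have hB : DifferentiableAt ℝ (pb φ β) p :=
      (hb.contDiffAt (hU'.mem_nhds hpU)).differentiableAt (by simp)
    have h3 : pb φ (σ - σ₀) p = extDeriv (pb φ β) p := by
      have h4 := hD _ φ hU' hφ' hav p hpU
      change pb φ σ p - pb φ σ₀ p = _
      rw [h4]
      abel
    rw [pb_prodD hU' hφ' hu hpU, h3, ← ext_prod hF' hB]
    rfl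
  refine ⟨?_, ?_, ?_⟩
  · intro U φ hU hφ p hp
    by_cases h : φ p ∈ O
    · exact (contDiffAt_const.congr_of_eventuallyEq (near1 U φ hU hφ p hp h).1).contDiffWithinAt
    · exact (near2 U φ hU hφ p hp (fun h' => h (hKO h'))).1.contDiffWithinAt
  · intro U φ hU hφ p hp
    by_cases h : φ p ∈ O
    · exact (contDiffAt_const.congr_of_eventuallyEq (near1 U φ hU hφ p hp h).2).contDiffWithinAt
    · exact (near2 U φ hU hφ p hp (fun h' => h (hKO h'))).2.1.contDiffWithinAt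
  · intro U φ hU hφ p hp
    by_cases h : φ p ∈ O
    · obtain ⟨h1, h2⟩ := near1 U φ hU hφ p hp h
      rw [h1.extDeriv_eq, h2.self_of_nhds]
      unfold extDeriv
      have : fderiv ℝ (0 : E d → (E d) [⋀^Fin 1]→L[ℝ] ℝ) p = 0 := by
        simp
      rw [this]
      exact map_zero (ContinuousAlternatingMap.alternatizeUncurryFinCLM ℝ (E d) ℝ)
    · exact (near2 U φ hU hφ p hp (fun h' => h (hKO h'))).2.2

end Pool.Agent.K7.H28.SY
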