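import Pool.Agent.K7.H28.SY.PubS
import Pool.Agent.K7.H28.SY.Fin2
import Pool.Agent.Y501.SY.BridgeT

/-!
Closed two-forms with singular primitives: comparison of the definitions.
-/

set_option autoImplicit false

open Set Filter Topology MeasureTheory
open scoped Manifold ContDiff

noncomputable section

namespace Pool.Agent.K7.H28.SYP

open Pool.Agent.Y501.SYP
open Pool.Agent.Y501

section

variable {d : ℕ} {X : Type} [TopologicalSpace X] [ChartedSpace (ES d) X]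

attribute [local instance] cs mf

theorem singularPrimitives [IsManifold 𝓘(ℝ, ES d) ∞ X] [CompactSpace X] [T2Space X]
    (hd : 1 ≤ d) (J : End (ES d) X) (hJ : IsAlmostComplex J) (K : Set X) (hK : IsClosed K)
    (k q : ℝ) (hk : k < 2) (hkq : k + q < 1) (hbox : BoxBound (ES d) K k)
    (σ₀ : Form (ES d) X 2) (hσ₀ : IsSmooth σ₀) (hσ₀c : IsClosedForm σ₀)
    (β : Form (ES d) X 1) (σ : Form (ES d) X 2) (hβ : SmoothOff β K) (hσ : SmoothOff σ K)
    (hβσ : EqPlusD σ σ₀ β K) (hgrow : GrowthBound β K q)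
    (hpos : ∀ x, x ∉ K → ∀ v : TangentSpace 𝓘(ℝ, ES d) x, 0 ≤ qd σ J x v)
    (hsmall : ∀ z ∈ BadSet σ J K, ¬ connectedComponentIn (BadSet σ J K) z ⊆ K →
      SmallAll J (connectedComponentIn (BadSet σ J K) z) z) :
    ∃ (α : Form (ES d) X 1) (ρ : Form (ES d) X 2), IsSmooth α ∧ IsSmooth ρ ∧ IsD α ρ ∧
      IsTamingSymplectic (addF σ₀ ρ) J := by
  obtain ⟨α, ρ, h1, h2, h3, h4, h5, h6⟩ := Pool.Agent.K7.H28.SY.mainSP (d := d) (X := X) hd
    (J := J) (ac_of J hJ) (K := K) hK (β := β) (σ₀ := σ₀) (σ := σ)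
    (fun V φ hV hφ hp => hβ V φ ⟨hV, hφ⟩ hp)
    (fun V φ hV hφ hp => hσ V φ ⟨hV, hφ⟩ hp)
    ((smooth_iff σ₀).1 hσ₀) ((closed_iff σ₀).1 hσ₀c)
    (fun V φ hV hφ hp p hpV => hβσ V φ ⟨hV, hφ⟩ hp p hpV) (k := k) (q := q) hk hkq hbox hgrow
    hpos (fun z hz hzK => smallAll_of hJ (hsmall z hz hzK))
  exact ⟨α, ρ, (smooth_iff α).2 h1, (smooth_iff ρ).2 h2, (isD_iff α ρ).2 h3,
    symp_of ((smooth_iff _).2 h4) ((closed_iff _).2 h5) h6⟩

end

end Pool.Agent.K7.H28.SYP
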