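import Pool.Agent.K7.H28.SY.Loc2

/-!
Approximation of a form with a singular primitive from below.
-/

set_option autoImplicit false

open Set Filter Topology
open scoped Manifold ContDiff

noncomputable section

namespace Pool.Agent.K7.H28.SY

open Pool.Agent.Y501.SY Pool.Agent.Y484.SY Pool.Agent.Y658.SY

section

variable {d : ℕ} {X : Type} [TopologicalSpace X] [ChartedSpace (E d) X]

theorem dd_one_sub {f : X → ℝ} (hf : SmoothFun (d := d) f) (x : X)
    (v : TangentSpace (𝓡 d) x) : dd (d := d) (fun y => 1 - f y) x v = - dd (d := d) f x v := by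
  have h1 : (fun y => 1 - f y) = fun y => (fun _ : X => (1 : ℝ)) y + (fun y => (-1 : ℝ) * f y) y := by
    funext y
    ring
  have h2 : SmoothFun (d := d) (fun y => (-1 : ℝ) * f y) := (SmoothFun.const (-1)).mul hf
  rw [h1, dd_add (SmoothFun.const 1) h2, dd_mul (SmoothFun.const (-1)) hf,
    dd_zero_of_near (c := 1) Filter.EventuallyEq.rfl v,
    dd_zero_of_near (c := -1) Filter.EventuallyEq.rfl v]
  ring

open Classical in
/-- the indicator function of a ball in a chart -/
def ind (z : X) (y : E d) (s : ℝ) (x : X) : ℝ :=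
  if x ∈ (chartAt (E d) z).source ∧ dist (chartAt (E d) z x) y < s then 1 else 0

theorem ind_one {z : X} {y : E d} {s : ℝ} {x : X}
    (h : x ∈ (chartAt (E d) z).source ∧ dist (chartAt (E d) z x) y < s) : ind z y s x = 1 := by
  unfold ind
  exact if_pos h

theorem ind_zero {z : X} {y : E d} {s : ℝ} {x : X}
    (h : ¬ (x ∈ (chartAt (E d) z).source ∧ dist (chartAt (E d) z x) y < s)) :
    ind z y s x = 0 := by
  unfold ind
  exact if_neg h

theorem ind_nonneg (z : X) (y : E d) (s : ℝ) (x : X) : 0 ≤ ind z y s x := by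
  by_cases h : x ∈ (chartAt (E d) z).source ∧ dist (chartAt (E d) z x) y < s
  · rw [ind_one h]; exact zero_le_one
  · rw [ind_zero h]

theorem ind_ne {z : X} {y : E d} {s : ℝ} {x : X} (h : ind z y s x ≠ 0) :
    x ∈ (chartAt (E d) z).source ∧ dist (chartAt (E d) z x) y < s := by
  by_contra hcon
  exact h (ind_zero hcon)

end

/-- the error term tends to zero -/
theorem small_r {A₁ A₂ a b δ : ℝ} (ha : 0 < a) (hb : 0 < b) (hδ : 0 < δ) :
    ∀ᶠ r in 𝓝[>] (0 : ℝ), A₁ * r ^ a + A₂ * r ^ b ≤ δ := by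
  have h1 : Tendsto (fun r : ℝ => A₁ * r ^ a + A₂ * r ^ b) (𝓝[>] 0) (𝓝 (A₁ * 0 + A₂ * 0)) := by
    have e1 : Tendsto (fun r : ℝ => r ^ a) (𝓝[>] 0) (𝓝 0) := by
      have := (Real.continuousAt_rpow_const 0 a (Or.inr ha.le)).tendsto
      rw [Real.zero_rpow ha.ne'] at this
      exact this.mono_left nhdsWithin_le_nhds
    have e2 : Tendsto (fun r : ℝ => r ^ b) (𝓝[>] 0) (𝓝 0) := by
      have := (Real.continuousAt_rpow_const 0 b (Or.inr hb.le)).tendsto
      rw [Real.zero_rpow hb.ne'] at this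
      exact this.mono_left nhdsWithin_le_nhds
    exact (e1.const_mul A₁).add (e2.const_mul A₂)
  rw [mul_zero, mul_zero, add_zero] at h1
  filter_upwards [h1.eventually (gt_mem_nhds hδ)] with r hr using hr.le

section

variable {d : ℕ} {X : Type} [TopologicalSpace X] [ChartedSpace (E d) X]
  [IsManifold (𝓡 d) ∞ X]

/-- the neighbourhood of `z` on which its chart is used -/
def nbh (z : X) (R : ℝ) : Set X :=
  (chartAt (E d) z).source ∩ chartAt (E d) z ⁻¹' Metric.ball (chartAt (E d) z z) R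

omit [IsManifold (𝓡 d) ∞ X] in
theorem isOpen_nbh (z : X) (R : ℝ) : IsOpen (nbh (d := d) z R) :=
  (chartAt (E d) z).continuousOn.isOpen_inter_preimage (chartAt (E d) z).open_source
    Metric.isOpen_ball

omit [IsManifold (𝓡 d) ∞ X] in
theorem mem_nbh {z : X} {R : ℝ} (hR : 0 < R) : z ∈ nbh (d := d) z R :=
  ⟨mem_chart_source (E d) z, Metric.mem_ball_self hR⟩

omit [IsManifold (𝓡 d) ∞ X] in
/-- balls around points of `K` stay in a neighbourhood of `K` -/
theorem thick {m : ℕ} {F : X → E m} {J : End d X} {K : Set X} (hK : IsClosed K)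
    {β : Form d X 1} {σ₀ : Form d X 2} {k q ε : ℝ} {z : X} {R C r₀ : ℝ}
    (h : Loc F J K β σ₀ k q ε z R C r₀) {W : Set X} (hW : IsOpen W) (hKW : K ⊆ W) :
    ∃ δ : ℝ, 0 < δ ∧ ∀ y ∈ Metric.ball (chartAt (E d) z z) (2 * R),
      (chartAt (E d) z).symm y ∈ K → ∀ x ∈ (chartAt (E d) z).source,
        dist (chartAt (E d) z x) y < δ → x ∈ W := by
  set c := chartAt (E d) z with hc
  have hsub : Metric.closedBall (c z) (2 * R) ⊆ c.target := by
    refine Subset.trans (Metric.closedBall_subset_closedBall ?_) h.tgt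
    have := h.hR
    linarith
  have hKz : IsCompact (Metric.closedBall (c z) (2 * R) ∩ c.symm ⁻¹' K) := by
    refine (isCompact_closedBall (c z) (2 * R)).of_isClosed_subset ?_ inter_subset_left
    exact (c.continuousOn_symm.mono hsub).preimage_isClosed_of_isClosed
      Metric.isClosed_closedBall hK
  have hWz : IsOpen (c.target ∩ c.symm ⁻¹' W) := c.isOpen_inter_preimage_symm hW
  obtain ⟨δ, hδ, hth⟩ := hKz.exists_thickening_subset_open hWz (by
    rintro y ⟨hy, hyK⟩
    exact ⟨hsub hy, hKW hyK⟩)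
  refine ⟨δ, hδ, fun y hy hyK x hx hxy => ?_⟩
  have h1 : c x ∈ Metric.thickening δ (Metric.closedBall (c z) (2 * R) ∩ c.symm ⁻¹' K) :=
    Metric.mem_thickening_iff.2 ⟨y, ⟨Metric.ball_subset_closedBall hy, hyK⟩, hxy⟩
  have h2 := (hth h1).2
  rw [mem_preimage, c.left_inv hx] at h2
  exact h2

end

end Pool.Agent.K7.H28.SY
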