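import Pool.Agent.K7.H28.SY.Apx

/-!
Approximation of a form with a singular primitive from below, at a fixed scale.
-/

set_option autoImplicit false

open Set Filter Topology
open scoped Manifold ContDiff

noncomputable section

namespace Pool.Agent.K7.H28.SY

open Pool.Agent.Y501.SY Pool.Agent.Y484.SY Pool.Agent.Y658.SY

variable {d : ℕ} {X : Type} [TopologicalSpace X] [ChartedSpace (E d) X]
  [IsManifold (𝓡 d) ∞ X]

/-- a finite set of charts with a common constant, and a scale -/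
structure Sc {m : ℕ} (F : X → E m) (J : End d X) (K : Set X) (β : Form d X 1)
    (σ₀ : Form d X 2) (k q ε : ℝ) (t : Finset X) (R : X → ℝ) (Cm : ℝ) (W : Set X) (r : ℝ) :
    Prop where
  hloc : ∀ z ∈ t, ∃ r₀, r ≤ r₀ ∧ Loc F J K β σ₀ k q ε z (R z) Cm r₀
  htK : ∀ z ∈ t, z ∈ K
  hKW : K ⊆ W
  hWt : ∀ x ∈ W, ∃ z ∈ t, x ∈ nbh (d := d) z (R z)
  hr : 0 < r
  hr1 : r ≤ 1
  hrR : ∀ z ∈ t, 3 * r ≤ R z
  hth : ∀ z ∈ t, ∀ y ∈ Metric.ball (chartAt (E d) z z) (2 * R z),
      (chartAt (E d) z).symm y ∈ K → ∀ x ∈ (chartAt (E d) z).source,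
        dist (chartAt (E d) z x) y < 3 * r → x ∈ W

/-- the bounds for the forms in the region near `K` -/
theorem Sc.bounds {m : ℕ} {F : X → E m} {J : End d X} {K : Set X} {β : Form d X 1}
    {σ₀ : Form d X 2} {k q ε : ℝ} {t : Finset X} {R : X → ℝ} {Cm : ℝ} {W : Set X} {r : ℝ}
    (h : Sc F J K β σ₀ k q ε t R Cm W r) {z : X} (hz : z ∈ t) {y : E d}
    (hy : y ∈ Metric.ball (chartAt (E d) z z) (2 * R z)) {x : X}
    (hx : x ∈ (chartAt (E d) z).source) (hxy : dist (chartAt (E d) z x) y < 3 * r)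
    (v : TangentSpace (𝓡 d) x) :
    |σ₀ x ![v, J x v]| ≤ Cm ^ 3 * nm F x v ^ 2 ∧ nm F x (J x v) ≤ Cm ^ 3 * nm F x v := by
  obtain ⟨r₀, -, hl⟩ := h.hloc z hz
  have hC := hl.hC
  have hin : chartAt (E d) z x ∈ Metric.closedBall (chartAt (E d) z z) (4 * R z) := by
    rw [Metric.mem_ball] at hy
    rw [Metric.mem_closedBall]
    have h1 := dist_triangle (chartAt (E d) z x) y (chartAt (E d) z z)
    have h2 := h.hrR z hz
    have h3 := hl.hR
    linarith
  obtain ⟨u, hu, h1, h2, h3, -, h5⟩ := hl.vec hx hin v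
  obtain ⟨u', hu', h1', h2', -⟩ := hl.vec hx hin (J x v)
  have hn : 0 ≤ nm F x v := norm_nonneg _
  have huu : u' = inChart J z (chartAt (E d) z x) u := by rw [← hu', h5]
  constructor
  · rw [h3]
    refine (hl.hσ₀ _ hin u).trans ?_
    calc Cm * ‖u‖ ^ 2 ≤ Cm * (Cm * nm F x v) ^ 2 := by gcongr
      _ = Cm ^ 3 * nm F x v ^ 2 := by ring
  · refine h2'.trans ?_
    have h6 : ‖u'‖ ≤ Cm * ‖u‖ := by
      rw [huu]
      exact ((inChart J z (chartAt (E d) z x)).le_opNorm u).trans (by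
        gcongr
        exact hl.hJ _ hin)
    calc Cm * ‖u'‖ ≤ Cm * (Cm * ‖u‖) := by gcongr
      _ ≤ Cm * (Cm * (Cm * nm F x v)) := by gcongr
      _ = Cm ^ 3 * nm F x v := by ring

/-- the bound for a one-form in terms of its norm in the chart -/
theorem Loc.one {m : ℕ} {F : X → E m} {J : End d X} {K : Set X} {β : Form d X 1}
    {σ₀ : Form d X 2} {k q ε : ℝ} {z : X} {R C r₀ : ℝ} (h : Loc F J K β σ₀ k q ε z R C r₀)
    {x : X} (hxK : x ∉ K) (hx : x ∈ (chartAt (E d) z).source)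
    (hxR : chartAt (E d) z x ∈ Metric.closedBall (chartAt (E d) z z) (4 * R)) {B : ℝ}
    (hB : (Metric.infDist (chartAt (E d) z x)
      (chartAt (E d) z '' (K ∩ (chartAt (E d) z).source))) ^ (-q) ≤ B)
    (v : TangentSpace (𝓡 d) x) : |β x ![v]| ≤ C ^ 2 * B * nm F x v := by
  obtain ⟨u, -, h1, -, -, h4, -⟩ := h.vec hx hxR v
  have hC := h.hC
  have h5 := h.grow _ hxR (by rwa [(chartAt (E d) z).left_inv hx])
  rw [h4]
  have h6 : |pb (chartAt (E d) z).symm β (chartAt (E d) z x) ![u]| ≤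
      ‖pb (chartAt (E d) z).symm β (chartAt (E d) z x)‖ * ‖u‖ := by
    have := (pb (chartAt (E d) z).symm β (chartAt (E d) z x)).le_opNorm ![u]
    simpa using this
  have hB0 : 0 ≤ B := le_trans (Real.rpow_nonneg Metric.infDist_nonneg _) hB
  have hn : 0 ≤ nm F x v := norm_nonneg _
  calc |pb (chartAt (E d) z).symm β (chartAt (E d) z x) ![u]|
      ≤ ‖pb (chartAt (E d) z).symm β (chartAt (E d) z x)‖ * ‖u‖ := h6
    _ ≤ (C * B) * (C * nm F x v) := by
      have : ‖pb (chartAt (E d) z).symm β (chartAt (E d) z x)‖ ≤ C * B := h5.trans (by gcongr)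
      gcongr
    _ = C ^ 2 * B * nm F x v := by ring

theorem atR [CompactSpace X] [T2Space X] {m : ℕ} {F : X → E m} {J : End d X} {K : Set X}
    (hK : IsClosed K) {β : Form d X 1} {σ₀ σ : Form d X 2} (hβ : SmoothOff β K)
    (hσ : SmoothOff σ K) (hσ₀ : IsSmooth σ₀) (hD : EqOff σ σ₀ β K) {k q ε : ℝ}
    {t : Finset X} {R : X → ℝ} {Cm : ℝ} (hCm : 0 < Cm) {W : Set X} {r : ℝ}
    (h : Sc F J K β σ₀ k q ε t R Cm W r) {f₀ : E d → ℝ} {D : ℝ}
    (hD0 : 0 < D) (hf : ContDiff ℝ ∞ f₀) (hf0 : ∀ p, 0 ≤ f₀ p) (hf1 : ∀ p, f₀ p ≤ 1)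
    (hf2 : ∀ p, ‖p‖ ≤ 2 → f₀ p = 1) (hf3 : ∀ p, 3 ≤ ‖p‖ → f₀ p = 0)
    (hfD : ∀ p, ‖fderiv ℝ f₀ p‖ ≤ D) :
    ∃ (α : Form d X 1) (η : Form d X 2) (χ : X → ℝ), IsSmooth α ∧ IsSmooth η ∧ IsD α η ∧
      (∀ x, 0 ≤ χ x) ∧ (∀ x, χ x ≤ 1) ∧ (∀ x, x ∉ W → χ x = 1) ∧ (∀ x ∈ K, χ x = 0) ∧
      ∀ (x : X) (v : TangentSpace (𝓡 d) x), χ x * σ x ![v, J x v] -
        (Cm ^ 3 + 2 * (D * Cm / r) * (Cm ^ 2 * (3 ^ |q| * r ^ (-q))) * Cm ^ 3) *
          (Cm ^ 3 * r ^ (2 - 2 * ε)) * (Cm ^ 3 * (t.card * (Cm * r ^ (-k)))) * nm F x v ^ 2 ≤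
        (σ₀ + η) x ![v, J x v] := by
  classical
  have hr := h.hr
  -- the covers
  have hcov : ∀ z ∈ t, ∃ P : Finset (E d), (P.card : ℝ) ≤ Cm * r ^ (-k) ∧
      (∀ y ∈ P, y ∈ Metric.ball (chartAt (E d) z z) (2 * R z) ∧
        (chartAt (E d) z).symm y ∈ K) ∧
      ∀ p ∈ Metric.ball (chartAt (E d) z z) (2 * R z), (chartAt (E d) z).symm p ∈ K →
        ∃ y ∈ P, dist p y < r := by
    intro z hz
    obtain ⟨r₀, hrr, hl⟩ := h.hloc z hz
    exact hl.cover r hr hrr
  choose! P hP1 hP2 hP3 using hcov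
  set I : Finset (Σ _ : X, E d) := t.sigma P with hI
  have hIm : ∀ i : (Σ _ : X, E d), i ∈ I → i.1 ∈ t ∧ i.2 ∈ P i.1 := fun i hi =>
    Finset.mem_sigma.1 hi
  -- the bump functions
  have hbump : ∀ i : (Σ _ : X, E d), i ∈ I → ∃ f : X → ℝ, SmoothFun (d := d) f ∧
      (∀ x, 0 ≤ f x) ∧ (∀ x, f x ≤ 1) ∧
      (∀ x ∈ (chartAt (E d) i.1).source, dist (chartAt (E d) i.1 x) i.2 ≤ 2 * r → f x = 1) ∧
      (∀ x, f x ≠ 0 → x ∈ (chartAt (E d) i.1).source ∧
        dist (chartAt (E d) i.1 x) i.2 < 3 * r) ∧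
      (∀ x ∈ (chartAt (E d) i.1).source, dist (chartAt (E d) i.1 x) i.2 < 3 * r →
        ∀ v : TangentSpace (𝓡 d) x, |dd (d := d) f x v| ≤ D * Cm / r * nm F x v) ∧
      (∀ x, ¬ (x ∈ (chartAt (E d) i.1).source ∧ dist (chartAt (E d) i.1 x) i.2 < 3 * r) →
        ∀ v : TangentSpace (𝓡 d) x, dd (d := d) f x v = 0) := by
    intro i hi
    obtain ⟨h1, h2⟩ := hIm i hi
    obtain ⟨r₀, hrr, hl⟩ := h.hloc i.1 h1
    exact hl.bump hD0 hf hf0 hf1 hf2 hf3 hfD (hP2 i.1 h1 i.2 h2).1 hr (h.hrR i.1 h1)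
  choose! f hfs hfn hfle hfone hfsupp hfd hfdz using hbump
  -- the potentials
  have hpot : ∀ i : (Σ _ : X, E d), i ∈ I → ∃ (α : Form d X 1) (η : Form d X 2),
      IsSmooth α ∧ IsSmooth η ∧ IsD α η ∧
      (∀ (x : X) (v : TangentSpace (𝓡 d) x), 0 ≤ η x ![v, J x v] + Cm ^ 3 * nm F x v ^ 2) ∧
      ∀ x ∈ (chartAt (E d) i.1).source, dist (chartAt (E d) i.1 x) i.2 < 3 * r →
        ∀ v : TangentSpace (𝓡 d) x, nm F x v ^ 2 ≤
          Cm ^ 3 * r ^ (2 - 2 * ε) * (η x ![v, J x v] + Cm ^ 3 * nm F x v ^ 2) := by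
    intro i hi
    obtain ⟨h1, h2⟩ := hIm i hi
    obtain ⟨r₀, hrr, hl⟩ := h.hloc i.1 h1
    exact hl.potX (hP2 i.1 h1 i.2 h2).1 hr hrr (h.hrR i.1 h1)
  choose! α' η' hα' hη' hαη' hη0 hη1 using hpot
  -- the product
  set a : (Σ _ : X, E d) → X → ℝ := fun i x => 1 - f i x with ha
  obtain ⟨hχs, hχ0, hχ1, hχd⟩ := prod_fun I a
    (fun i hi => by
      have h2 : SmoothFun (d := d) (fun y => (-1 : ℝ) * f i y) :=
        (SmoothFun.const (-1)).mul (hfs i hi)
      have h3 := (SmoothFun.const (X := X) (1 : ℝ)).add h2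
      have h4 : a i = fun y => 1 + (-1 : ℝ) * f i y := by
        funext y
        rw [ha]
        ring
      rw [h4]
      exact h3)
    (fun i hi x => by have := hfle i hi x; rw [ha]; linarith)
    (fun i hi x => by have := hfn i hi x; rw [ha]; linarith)
  set χ : X → ℝ := fun x => ∏ i ∈ I, a i x with hχ
  set e : X → ℝ := fun x => ∑ i ∈ I, ind i.1 i.2 (3 * r) x with he
  have he0 : ∀ x, 0 ≤ e x := fun x => Finset.sum_nonneg fun i _ => ind_nonneg _ _ _ _
  have heI : ∀ x, e x ≠ 0 → ∃ i ∈ I, x ∈ (chartAt (E d) i.1).source ∧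
      dist (chartAt (E d) i.1 x) i.2 < 3 * r := by
    intro x hx
    obtain ⟨i, hi, hne⟩ := Finset.exists_ne_zero_of_sum_ne_zero hx
    exact ⟨i, hi, ind_ne hne⟩
  have heone : ∀ x, ∀ i ∈ I, x ∈ (chartAt (E d) i.1).source →
      dist (chartAt (E d) i.1 x) i.2 < 3 * r → 1 ≤ e x := by
    intro x i hi h1 h2
    have h3 := Finset.single_le_sum (f := fun i : (Σ _ : X, E d) => ind i.1 i.2 (3 * r) x)
      (fun j _ => ind_nonneg _ _ _ _) hi
    change ind i.1 i.2 (3 * r) x ≤ e x at h3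
    rwa [ind_one ⟨h1, h2⟩] at h3
  have hnmn : ∀ (x : X) (v : TangentSpace (𝓡 d) x), 0 ≤ nm F x v := fun x v => norm_nonneg _
  have hF1 : ∀ (x : X) (v : TangentSpace (𝓡 d) x),
      |dd (d := d) χ x v| ≤ D * Cm / r * e x * nm F x v := by
    intro x v
    refine (hχd x v).trans ?_
    have h2 : ∀ i ∈ I, |dd (d := d) (a i) x v| ≤
        D * Cm / r * ind i.1 i.2 (3 * r) x * nm F x v := by
      intro i hi
      have h3 : dd (d := d) (a i) x v = - dd (d := d) (f i) x v := dd_one_sub (hfs i hi) x v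
      rw [h3, abs_neg]
      by_cases h4 : x ∈ (chartAt (E d) i.1).source ∧
          dist (chartAt (E d) i.1 x) i.2 < 3 * r
      · rw [ind_one h4, mul_one]
        exact hfd i hi x h4.1 h4.2 v
      · rw [hfdz i hi x h4 v, ind_zero h4, abs_zero, mul_zero, zero_mul]
    refine (Finset.sum_le_sum h2).trans (le_of_eq ?_)
    rw [he, Finset.mul_sum, Finset.sum_mul]
  have hF2 : ∀ x, e x = 0 → χ x = 1 := by
    intro x hx
    refine Finset.prod_eq_one fun i hi => ?_
    have h1 : f i x = 0 := by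
      by_contra hne
      obtain ⟨h2, h3⟩ := hfsupp i hi x hne
      have := heone x i hi h2 h3
      linarith
    change 1 - f i x = 1
    rw [h1, sub_zero]
  have hχz : ∀ x, ∀ i ∈ I, x ∈ (chartAt (E d) i.1).source →
      dist (chartAt (E d) i.1 x) i.2 ≤ 2 * r → χ x = 0 := by
    intro x i hi h1 h2
    refine Finset.prod_eq_zero hi ?_
    change 1 - f i x = 0
    rw [hfone i hi x h1 h2, sub_self]
  have hF3 : ∀ x, e x ≠ 0 → x ∈ W := by
    intro x hx
    obtain ⟨i, hi, h1, h2⟩ := heI x hx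
    obtain ⟨h3, h4⟩ := hIm i hi
    obtain ⟨h5, h6⟩ := hP2 i.1 h3 i.2 h4
    exact h.hth i.1 h3 i.2 h5 h6 x h1 h2
  -- points near `K`
  have hnear : ∀ z ∈ t, ∀ x ∈ nbh (d := d) z (R z), ∀ x' ∈ K, x' ∈ (chartAt (E d) z).source →
      dist (chartAt (E d) z x) (chartAt (E d) z x') < r → ∃ i ∈ I,
        x ∈ (chartAt (E d) i.1).source ∧ dist (chartAt (E d) i.1 x) i.2 < 2 * r := by
    intro z hz x hx x' hx' hx's hxx'
    have hxb : dist (chartAt (E d) z x) (chartAt (E d) z z) < R z := Metric.mem_ball.1 hx.2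
    have h1 : chartAt (E d) z x' ∈ Metric.ball (chartAt (E d) z z) (2 * R z) := by
      rw [Metric.mem_ball]
      have h2 := dist_triangle_left (chartAt (E d) z x') (chartAt (E d) z z)
        (chartAt (E d) z x)
      have h3 := h.hrR z hz
      linarith
    obtain ⟨y, hy, hyd⟩ := hP3 z hz _ h1 (by rwa [(chartAt (E d) z).left_inv hx's])
    refine ⟨⟨z, y⟩, Finset.mem_sigma.2 ⟨hz, hy⟩, hx.1, ?_⟩
    have h4 := dist_triangle (chartAt (E d) z x) (chartAt (E d) z x') y
    change dist (chartAt (E d) z x) y < 2 * r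
    linarith
  have hKI : ∀ x ∈ K, ∃ i ∈ I, x ∈ (chartAt (E d) i.1).source ∧
      dist (chartAt (E d) i.1 x) i.2 < 2 * r := by
    intro x hx
    obtain ⟨z, hz, hxz⟩ := h.hWt x (h.hKW hx)
    exact hnear z hz x hxz x hx hxz.1 (by rw [dist_self]; exact hr)
  -- the open set on which `χ` vanishes
  set O : Set X := ⋃ i ∈ I, (chartAt (E d) i.1).source ∩
    chartAt (E d) i.1 ⁻¹' Metric.ball i.2 (2 * r) with hO
  have hOo : IsOpen O := isOpen_biUnion fun i _ =>
    (chartAt (E d) i.1).continuousOn.isOpen_inter_preimage (chartAt (E d) i.1).open_source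
      Metric.isOpen_ball
  have hKO : K ⊆ O := by
    intro x hx
    obtain ⟨i, hi, h1, h2⟩ := hKI x hx
    exact mem_iUnion₂.2 ⟨i, hi, h1, h2⟩
  have hOz : ∀ x ∈ O, χ x = 0 := by
    intro x hx
    obtain ⟨i, hi, h1, h2⟩ := mem_iUnion₂.1 hx
    exact hχz x i hi h1 (Metric.mem_ball.1 h2).le
  obtain ⟨g1, g2, g3⟩ := prod_off hK hχs hβ hσ hσ₀ hD hOo hKO hOz
  -- the total form
  set M : ℝ := Cm ^ 3 + 2 * (D * Cm / r) * (Cm ^ 2 * (3 ^ |q| * r ^ (-q))) * Cm ^ 3 with hM
  set A : ℝ := M * (Cm ^ 3 * r ^ (2 - 2 * ε)) with hA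
  have hrq : 0 ≤ r ^ (-q) := Real.rpow_nonneg hr.le _
  have h3q : 0 ≤ (3 : ℝ) ^ |q| := Real.rpow_nonneg (by norm_num) _
  have hM0 : 0 ≤ M := by rw [hM]; positivity
  have hA0 : 0 ≤ A := mul_nonneg hM0 (mul_nonneg (by positivity) (Real.rpow_nonneg hr.le _))
  have hsum : ∀ s : Finset (Σ _ : X, E d), s ⊆ I → IsSmooth (∑ i ∈ s, α' i) ∧
      IsSmooth (∑ i ∈ s, η' i) ∧ IsD (∑ i ∈ s, α' i) (∑ i ∈ s, η' i) := by
    intro s
    induction s using Finset.induction_on with
    | empty =>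
      intro _
      rw [Finset.sum_empty, Finset.sum_empty]
      exact ⟨IsSmooth.zero, IsSmooth.zero, IsD.zero⟩
    | insert j s hj ih =>
      intro hs
      obtain ⟨i1, i2, i3⟩ := ih fun i hi => hs (Finset.mem_insert_of_mem hi)
      have hjI := hs (Finset.mem_insert_self j s)
      rw [Finset.sum_insert hj, Finset.sum_insert hj]
      exact ⟨(hα' j hjI).add i1, (hη' j hjI).add i2, (hαη' j hjI).add i3 (hα' j hjI) i1⟩
  obtain ⟨s1, s2, s3⟩ := hsum I Subset.rfl
  refine ⟨(fun x => χ x • β x : Form d X 1) + A • ∑ i ∈ I, α' i,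
    prodD χ β (σ - σ₀) + A • ∑ i ∈ I, η' i, χ, g1.add (s1.smul A), g2.add (s2.smul A),
    g3.add (s3.smul A) g1 (s1.smul A), hχ0, hχ1, ?_, fun x hx => hOz x (hKO hx), ?_⟩
  · intro x hx
    apply hF2
    by_contra hne
    exact hx (hF3 x hne)
  intro x v
  -- the first estimate
  have hM1 : χ x * σ x ![v, J x v] - M * e x * nm F x v ^ 2 ≤
      σ₀ x ![v, J x v] + prodD χ β (σ - σ₀) x ![v, J x v] := by
    rw [prodD_apply]
    have hsub : (σ - σ₀) x ![v, J x v] = σ x ![v, J x v] - σ₀ x ![v, J x v] := rfl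
    rw [hsub]
    by_cases hex : e x = 0
    · have h1 : ∀ w : TangentSpace (𝓡 d) x, dd (d := d) χ x w = 0 := by
        intro w
        have := hF1 x w
        rw [hex, mul_zero, zero_mul] at this
        exact abs_eq_zero.1 (le_antisymm this (abs_nonneg _))
      rw [hF2 x hex, hex, h1, h1]
      linarith
    · obtain ⟨i, hi, hxs, hxd⟩ := heI x hex
      obtain ⟨hit, hiP⟩ := hIm i hi
      obtain ⟨hib, hiK⟩ := hP2 i.1 hit i.2 hiP
      have he1 : 1 ≤ e x := heone x i hi hxs hxd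
      obtain ⟨b1, b2⟩ := h.bounds hit hib hxs hxd v
      have hn := hnmn x v
      have b1' := abs_le.1 b1
      have hC3 : 0 ≤ Cm ^ 3 * nm F x v ^ 2 := by positivity
      have hee : Cm ^ 3 * nm F x v ^ 2 ≤ Cm ^ 3 * e x * nm F x v ^ 2 := by
        calc Cm ^ 3 * nm F x v ^ 2 = Cm ^ 3 * 1 * nm F x v ^ 2 := by ring
          _ ≤ _ := by gcongr
      by_cases hχx : χ x = 0
      · have h1 : ∀ w : TangentSpace (𝓡 d) x, dd (d := d) χ x w = 0 := fun w =>
          dd_zero_of_min hχs hχ0 x hχx w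
        rw [hχx, h1, h1]
        have h2 : Cm ^ 3 * e x * nm F x v ^ 2 ≤ M * e x * nm F x v ^ 2 := by
          have : Cm ^ 3 ≤ M := by
            rw [hM]
            have : 0 ≤ 2 * (D * Cm / r) * (Cm ^ 2 * (3 ^ |q| * r ^ (-q))) * Cm ^ 3 := by
              positivity
            linarith
          have := he0 x
          gcongr
        linarith [b1'.1]
      · -- the bound for `β`
        have hxK : x ∉ K := fun hxK => hχx (hOz x (hKO hxK))
        have hβ1 : ∀ w : TangentSpace (𝓡 d) x, |β x ![w]| ≤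
            Cm ^ 2 * (3 ^ |q| * r ^ (-q)) * nm F x w := by
          intro w
          rcases le_or_gt q 0 with hq | hq
          · obtain ⟨r₀, -, hl⟩ := h.hloc i.1 hit
            refine hl.one hxK hxs ?_ ?_ w
            · rw [Metric.mem_ball] at hib
              rw [Metric.mem_closedBall]
              have h1 := dist_triangle (chartAt (E d) i.1 x) i.2 (chartAt (E d) i.1 i.1)
              have h2 := h.hrR i.1 hit
              have h3 := hl.hR
              linarith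
            · have hy' : i.2 ∈ chartAt (E d) i.1 '' (K ∩ (chartAt (E d) i.1).source) := by
                have hit2 : i.2 ∈ (chartAt (E d) i.1).target := by
                  apply hl.tgt
                  rw [Metric.mem_ball] at hib
                  rw [Metric.mem_closedBall]
                  have h3 := hl.hR
                  linarith
                exact ⟨(chartAt (E d) i.1).symm i.2, ⟨hiK, (chartAt (E d) i.1).map_target hit2⟩,
                  (chartAt (E d) i.1).right_inv hit2⟩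
              have h1 : Metric.infDist (chartAt (E d) i.1 x)
                  (chartAt (E d) i.1 '' (K ∩ (chartAt (E d) i.1).source)) ≤ 3 * r :=
                (Metric.infDist_le_dist_of_mem hy').trans hxd.le
              have h2 := Real.rpow_le_rpow Metric.infDist_nonneg h1 (by linarith : 0 ≤ -q)
              refine h2.trans (le_of_eq ?_)
              rw [Real.mul_rpow (by norm_num) hr.le, abs_of_nonpos hq]
          · obtain ⟨z, hz, hxz⟩ := h.hWt x (hF3 x hex)
            obtain ⟨r₀, -, hl⟩ := h.hloc z hz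
            refine hl.one hxK hxz.1 ?_ ?_ w
            · have h1 := Metric.mem_ball.1 hxz.2
              rw [Metric.mem_closedBall]
              have h3 := hl.hR
              linarith
            · have h1 : r ≤ Metric.infDist (chartAt (E d) z x)
                  (chartAt (E d) z '' (K ∩ (chartAt (E d) z).source)) := by
                by_contra hcon
                push Not at hcon
                have hne : (chartAt (E d) z '' (K ∩ (chartAt (E d) z).source)).Nonempty :=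
                  ⟨_, z, ⟨h.htK z hz, mem_chart_source (E d) z⟩, rfl⟩
                obtain ⟨y', ⟨x', ⟨hx'K, hx's⟩, rfl⟩, hy'⟩ := (Metric.infDist_lt_iff hne).1 hcon
                obtain ⟨j, hj, j1, j2⟩ := hnear z hz x hxz x' hx'K hx's hy'
                exact hχx (hχz x j hj j1 j2.le)
              have h2 := Real.rpow_le_rpow_of_nonpos hr h1 (by linarith : -q ≤ 0)
              refine h2.trans ?_
              have h4 : (1 : ℝ) ≤ 3 ^ |q| := Real.one_le_rpow (by norm_num) (abs_nonneg q)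
              calc r ^ (-q) = 1 * r ^ (-q) := by ring
                _ ≤ 3 ^ |q| * r ^ (-q) := by gcongr
        have hBv := hβ1 v
        have hBJ := hβ1 (J x v)
        have hdv := hF1 x v
        have hdJ := hF1 x (J x v)
        set B : ℝ := Cm ^ 2 * (3 ^ |q| * r ^ (-q)) with hB
        have hB0 : 0 ≤ B := by positivity
        have hDC : 0 ≤ D * Cm / r := by positivity
        have hex0 := he0 x
        have hnJ := hnmn x (J x v)
        have c1 : |dd (d := d) χ x v * β x ![J x v]| ≤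
            (D * Cm / r) * B * Cm ^ 3 * e x * nm F x v ^ 2 := by
          rw [abs_mul]
          calc |dd (d := d) χ x v| * |β x ![J x v]| ≤
              (D * Cm / r * e x * nm F x v) * (B * nm F x (J x v)) := by gcongr
            _ ≤ (D * Cm / r * e x * nm F x v) * (B * (Cm ^ 3 * nm F x v)) := by gcongr
            _ = _ := by ring
        have c2 : |dd (d := d) χ x (J x v) * β x ![v]| ≤
            (D * Cm / r) * B * Cm ^ 3 * e x * nm F x v ^ 2 := by
          rw [abs_mul]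
          calc |dd (d := d) χ x (J x v)| * |β x ![v]| ≤
              (D * Cm / r * e x * nm F x (J x v)) * (B * nm F x v) := by gcongr
            _ ≤ (D * Cm / r * e x * (Cm ^ 3 * nm F x v)) * (B * nm F x v) := by gcongr
            _ = _ := by ring
        have c3 : -(Cm ^ 3 * e x * nm F x v ^ 2) ≤ (1 - χ x) * σ₀ x ![v, J x v] := by
          have h1 : 0 ≤ 1 - χ x := by have := hχ1 x; linarith
          have h2 : 1 - χ x ≤ 1 := by have := hχ0 x; linarith
          have h3 : |(1 - χ x) * σ₀ x ![v, J x v]| ≤ Cm ^ 3 * e x * nm F x v ^ 2 := by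
            rw [abs_mul, abs_of_nonneg h1]
            calc (1 - χ x) * |σ₀ x ![v, J x v]| ≤ 1 * (Cm ^ 3 * nm F x v ^ 2) := by gcongr
              _ ≤ _ := by rw [one_mul]; exact hee
          exact (abs_le.1 h3).1
        have c1' := (abs_le.1 c1).1
        have c2' := (abs_le.1 c2).2
        have hMe : M * e x * nm F x v ^ 2 = Cm ^ 3 * e x * nm F x v ^ 2 +
            2 * ((D * Cm / r) * B * Cm ^ 3 * e x * nm F x v ^ 2) := by
          rw [hM]; ring
        rw [hMe]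
        linarith
  -- the second estimate
  have hM2 : M * e x * nm F x v ^ 2 ≤ A * (∑ i ∈ I, η' i x ![v, J x v] +
      I.card * (Cm ^ 3 * nm F x v ^ 2)) := by
    have h1 : ∀ i ∈ I, M * ind i.1 i.2 (3 * r) x * nm F x v ^ 2 ≤
        A * (η' i x ![v, J x v] + Cm ^ 3 * nm F x v ^ 2) := by
      intro i hi
      by_cases h4 : x ∈ (chartAt (E d) i.1).source ∧ dist (chartAt (E d) i.1 x) i.2 < 3 * r
      · rw [ind_one h4, mul_one]
        have h5 := hη1 i hi x h4.1 h4.2 v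
        calc M * nm F x v ^ 2 ≤ M * (Cm ^ 3 * r ^ (2 - 2 * ε) *
            (η' i x ![v, J x v] + Cm ^ 3 * nm F x v ^ 2)) := by gcongr
          _ = _ := by rw [hA]; ring
      · rw [ind_zero h4, mul_zero, zero_mul]
        exact mul_nonneg hA0 (hη0 i hi x v)
    have h2 := Finset.sum_le_sum h1
    rw [← Finset.mul_sum, Finset.sum_add_distrib, Finset.sum_const, nsmul_eq_mul,
      ← Finset.sum_mul, ← Finset.mul_sum] at h2
    exact h2
  have hcard : (I.card : ℝ) ≤ t.card * (Cm * r ^ (-k)) := by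
    rw [hI, Finset.card_sigma]
    push_cast
    refine (Finset.sum_le_sum fun z hz => hP1 z hz).trans (le_of_eq ?_)
    rw [Finset.sum_const, nsmul_eq_mul]
  have hval : (σ₀ + (prodD χ β (σ - σ₀) + A • ∑ i ∈ I, η' i)) x ![v, J x v] =
      σ₀ x ![v, J x v] + prodD χ β (σ - σ₀) x ![v, J x v] +
        A * ∑ i ∈ I, η' i x ![v, J x v] := by
    have h1 : (∑ i ∈ I, η' i) x ![v, J x v] = ∑ i ∈ I, η' i x ![v, J x v] :=
      sum_apply2 I η' x _
    rw [← h1]
    change σ₀ x ![v, J x v] + (prodD χ β (σ - σ₀) x ![v, J x v] +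
      A * (∑ i ∈ I, η' i) x ![v, J x v]) = _
    ring
  rw [hval]
  have hfin : A * (I.card * (Cm ^ 3 * nm F x v ^ 2)) ≤
      A * (Cm ^ 3 * (t.card * (Cm * r ^ (-k)))) * nm F x v ^ 2 := by
    calc A * (I.card * (Cm ^ 3 * nm F x v ^ 2)) ≤
        A * ((t.card * (Cm * r ^ (-k))) * (Cm ^ 3 * nm F x v ^ 2)) := by gcongr
      _ = _ := by ring
  have h5 : A * (∑ i ∈ I, η' i x ![v, J x v] + I.card * (Cm ^ 3 * nm F x v ^ 2)) =
      A * ∑ i ∈ I, η' i x ![v, J x v] + A * (I.card * (Cm ^ 3 * nm F x v ^ 2)) := by ring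
  linarith

end Pool.Agent.K7.H28.SY
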