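import Pool.Agent.K7.H28.SY.Pot3
import Pool.Agent.Y501.SY.FinalV

/-!
Extension by zero of functions and forms given in a chart.
-/

set_option autoImplicit false

open Set Filter Topology
open scoped Manifold ContDiff

noncomputable section

namespace Pool.Agent.K7.H28.SY

open Pool.Agent.Y501.SY Pool.Agent.Y484.SY Pool.Agent.Y658.SY

variable {d : ℕ} {X : Type} [TopologicalSpace X] [ChartedSpace (E d) X]
  [IsManifold (𝓡 d) ∞ X]

/-- extension by zero of a one-form given in a chart -/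
theorem ext_form [T2Space X] (x₀ : X) {N' : Set (E d)} (hN' : IsCompact N')
    (hN't : N' ⊆ (chartAt (E d) x₀).target) {b : E d → (E d) [⋀^Fin 1]→L[ℝ] ℝ}
    (hb : ContDiff ℝ ∞ b) (h0 : ∀ p, p ∉ N' → b p = 0) :
    ∃ (β₁ : Form d X 1) (ρ₁ : Form d X 2), IsSmooth β₁ ∧ IsSmooth ρ₁ ∧ IsD β₁ ρ₁ ∧
      (∀ x, x ∉ (chartAt (E d) x₀).source ∨ chartAt (E d) x₀ x ∉ N' → β₁ x = 0 ∧ ρ₁ x = 0) ∧
      (∀ p ∈ (chartAt (E d) x₀).target, pb (chartAt (E d) x₀).symm β₁ p = b p) ∧
      ∀ p ∈ (chartAt (E d) x₀).target, pb (chartAt (E d) x₀).symm ρ₁ p = extDeriv b p := by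
  have himg : chartAt (E d) x₀ '' (chartAt (E d) x₀).source = (chartAt (E d) x₀).target :=
    (chartAt (E d) x₀).image_source_eq_target
  obtain ⟨β₁, ρ₁, h1, h2, h3, h4, h5, h6⟩ := Pool.Agent.Y891.SY.t_PATCHP d X x₀
    (chartAt (E d) x₀).source ∅ ∅ N' b 0 0 0 (chartAt (E d) x₀).open_source Subset.rfl
    isClosed_empty Subset.rfl hN' (by rw [himg]; exact hN't) (fun x hx => hx.elim)
    hb.contDiffOn (fun p hp => by
      rw [h0 p hp.2, pb_zero]
      rfl) IsSmooth.zero IsD.zero (fun U φ hU hφ _ => IsSmooth.zero U φ hU hφ)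
    (fun U φ hU hφ _ => IsSmooth.zero U φ hU hφ) (by
      rw [sub_zero]
      exact fun U φ hU hφ _ => IsD.zero U φ hU hφ)
  refine ⟨β₁, ρ₁, fun U φ hU hφ => h1 U φ hU hφ fun _ _ => notMem_empty _,
    fun U φ hU hφ => h2 U φ hU hφ fun _ _ => notMem_empty _, ?_, ?_, ?_, ?_⟩
  · rw [sub_zero] at h3
    exact fun U φ hU hφ => h3 U φ hU hφ fun _ _ => notMem_empty _
  · exact fun x hx => h4 x hx
  · intro p hp
    exact h5 p (by rw [himg]; exact hp)
  · intro p hp
    rw [h6 p (by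
      rw [himg]
      exact ⟨hp, by rintro ⟨x, ⟨hx, _⟩, _⟩; exact hx⟩), pb_zero]
    exact zero_add _

open Classical in
/-- extension by zero of a function given in a chart -/
def extF (x₀ : X) (b : E d → ℝ) (x : X) : ℝ :=
  if x ∈ (chartAt (E d) x₀).source then b (chartAt (E d) x₀ x) else 0

omit [IsManifold (𝓡 d) ∞ X] in
theorem extF_in {x₀ : X} {b : E d → ℝ} {x : X} (hx : x ∈ (chartAt (E d) x₀).source) :
    extF x₀ b x = b (chartAt (E d) x₀ x) := by
  unfold extF
  exact if_pos hx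

omit [IsManifold (𝓡 d) ∞ X] in
theorem extF_out {x₀ : X} {b : E d → ℝ} {x : X} (hx : x ∉ (chartAt (E d) x₀).source) :
    extF x₀ b x = 0 := by
  unfold extF
  exact if_neg hx

omit [IsManifold (𝓡 d) ∞ X] in
theorem extF_near [T2Space X] {x₀ : X} {N' : Set (E d)} (hN' : IsCompact N')
    (hN't : N' ⊆ (chartAt (E d) x₀).target) {b : E d → ℝ} (h0 : ∀ p, p ∉ N' → b p = 0)
    {x : X} (hx : x ∉ (chartAt (E d) x₀).source ∨ chartAt (E d) x₀ x ∉ N') :
    extF x₀ b =ᶠ[𝓝 x] fun _ => 0 := by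
  have hM : IsClosed ((chartAt (E d) x₀).symm '' N') :=
    (hN'.image_of_continuousOn ((chartAt (E d) x₀).continuousOn_symm.mono hN't)).isClosed
  have hxM : x ∉ (chartAt (E d) x₀).symm '' N' := by
    rintro ⟨p, hp, hpx⟩
    rcases hx with h | h
    · apply h
      rw [← hpx]
      exact (chartAt (E d) x₀).map_target (hN't hp)
    · apply h
      rw [← hpx, (chartAt (E d) x₀).right_inv (hN't hp)]
      exact hp
  filter_upwards [hM.isOpen_compl.mem_nhds hxM] with y hy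
  by_cases hys : y ∈ (chartAt (E d) x₀).source
  · rw [extF_in hys]
    apply h0
    intro h
    exact hy ⟨_, h, (chartAt (E d) x₀).left_inv hys⟩
  · exact extF_out hys

theorem extF_smooth [T2Space X] {x₀ : X} {N' : Set (E d)} (hN' : IsCompact N')
    (hN't : N' ⊆ (chartAt (E d) x₀).target) {b : E d → ℝ} (hb : ContDiff ℝ ∞ b)
    (h0 : ∀ p, p ∉ N' → b p = 0) : SmoothFun (d := d) (extF x₀ b) := by
  intro x
  by_cases hx : x ∈ (chartAt (E d) x₀).source
  · have h1 : ContMDiffAt (𝓡 d) 𝓘(ℝ, ℝ) ∞ (b ∘ chartAt (E d) x₀) x := by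
      have h2 : ContMDiffAt (𝓡 d) (𝓡 d) ∞ (chartAt (E d) x₀) x :=
        (contMDiffOn_chart (n := ∞)).contMDiffAt ((chartAt (E d) x₀).open_source.mem_nhds hx)
      exact hb.contMDiff.contMDiffAt.comp x h2
    refine h1.congr_of_eventuallyEq ?_
    filter_upwards [(chartAt (E d) x₀).open_source.mem_nhds hx] with y hy
    exact extF_in hy
  · exact (contMDiffAt_const (c := (0 : ℝ))).congr_of_eventuallyEq
      (extF_near hN' hN't h0 (Or.inl hx))

theorem dd_extF {x₀ : X} {b : E d → ℝ} (hb : ContDiff ℝ ∞ b) {x : X}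
    (hx : x ∈ (chartAt (E d) x₀).source) (v : TangentSpace (𝓡 d) x) :
    dd (d := d) (extF x₀ b) x v =
      fderiv ℝ b (chartAt (E d) x₀ x) (mfderiv (𝓡 d) (𝓡 d) (chartAt (E d) x₀) x v) := by
  have h0 : extF x₀ b =ᶠ[𝓝 x] b ∘ chartAt (E d) x₀ := by
    filter_upwards [(chartAt (E d) x₀).open_source.mem_nhds hx] with y hy
    exact extF_in hy
  have h2 : MDifferentiableAt (𝓡 d) (𝓡 d) (chartAt (E d) x₀) x :=
    ((contMDiffOn_chart (n := ∞)).contMDiffAt
      ((chartAt (E d) x₀).open_source.mem_nhds hx)).mdifferentiableAt (by simp)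
  have h3 : MDifferentiableAt 𝓘(ℝ, E d) 𝓘(ℝ, ℝ) b (chartAt (E d) x₀ x) :=
    (hb.contDiffAt.differentiableAt (by simp)).mdifferentiableAt
  unfold dd
  rw [h0.mfderiv_eq, mfderiv_comp x h3 h2, mfderiv_eq_fderiv]
  rfl

omit [IsManifold (𝓡 d) ∞ X] in
theorem dd_zero_of_near {f : X → ℝ} {x : X} {c : ℝ} (h : f =ᶠ[𝓝 x] fun _ => c)
    (v : TangentSpace (𝓡 d) x) : dd (d := d) f x v = 0 := by
  unfold dd
  rw [h.mfderiv_eq, mfderiv_const]
  rfl

omit [IsManifold (𝓡 d) ∞ X] in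
/-- properties of points can be checked in charts -/
theorem of_chart {P : X → Prop} (h : ∀ (x₀ : X) (p : E d), p ∈ (chartAt (E d) x₀).target →
    P ((chartAt (E d) x₀).symm p)) (x : X) : P x := by
  have h1 := h x (chartAt (E d) x x) (mem_chart_target (E d) x)
  rwa [(chartAt (E d) x).left_inv (mem_chart_source (E d) x)] at h1

/-- the differential vanishes at the zeros of a nonnegative function -/
theorem dd_zero_of_min {f : X → ℝ} (hf : SmoothFun (d := d) f) (h0 : ∀ y, 0 ≤ f y) (x : X)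
    (hx : f x = 0) : ∀ v : TangentSpace (𝓡 d) x, dd (d := d) f x v = 0 := by
  revert hx
  refine of_chart (d := d) (P := fun x => f x = 0 → ∀ v : TangentSpace (𝓡 d) x,
    dd (d := d) f x v = 0) (fun x₀ p hp hx v => ?_) x
  have h1 : IsLocalMin (f ∘ (chartAt (E d) x₀).symm) p := by
    refine Filter.Eventually.of_forall fun q => ?_
    change f ((chartAt (E d) x₀).symm p) ≤ f ((chartAt (E d) x₀).symm q)
    rw [hx]
    exact h0 _
  obtain ⟨w, hw⟩ := Pool.Agent.Y455.SY.A_surj x₀ hp v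
  have h3 := dd_comp (chartAt (E d) x₀).open_target (contMDiffOn_chart_symm) hf hp w
  rw [h1.fderiv_eq_zero] at h3
  have h4 : (mfderiv (𝓡 d) (𝓡 d) (chartAt (E d) x₀).symm p w :
    TangentSpace (𝓡 d) ((chartAt (E d) x₀).symm p)) = v := hw
  rw [h4] at h3
  exact h3

omit [IsManifold (𝓡 d) ∞ X] in
/-- finite products of functions with values in the unit interval -/
theorem prod_fun {ι : Type} (s : Finset ι) (a : ι → X → ℝ)
    (ha : ∀ i ∈ s, SmoothFun (d := d) (a i)) (h0 : ∀ i ∈ s, ∀ x, 0 ≤ a i x)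
    (h1 : ∀ i ∈ s, ∀ x, a i x ≤ 1) :
    SmoothFun (d := d) (fun x => ∏ i ∈ s, a i x) ∧ (∀ x, 0 ≤ ∏ i ∈ s, a i x) ∧
      (∀ x, ∏ i ∈ s, a i x ≤ 1) ∧ ∀ (x : X) (v : TangentSpace (𝓡 d) x),
        |dd (d := d) (fun x => ∏ i ∈ s, a i x) x v| ≤ ∑ i ∈ s, |dd (d := d) (a i) x v| := by
  classical
  induction s using Finset.induction_on with
  | empty =>
    refine ⟨?_, fun x => by simp, fun x => by simp, fun x v => ?_⟩
    · simp only [Finset.prod_empty]
      exact SmoothFun.const 1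
    · simp only [Finset.prod_empty, Finset.sum_empty]
      rw [dd_zero_of_near (c := 1) (Filter.EventuallyEq.rfl) v, abs_zero]
  | insert j s hj ih =>
    obtain ⟨i1, i2, i3, i4⟩ := ih (fun i hi => ha i (Finset.mem_insert_of_mem hi))
      (fun i hi => h0 i (Finset.mem_insert_of_mem hi))
      (fun i hi => h1 i (Finset.mem_insert_of_mem hi))
    have haj := ha j (Finset.mem_insert_self j s)
    have h0j := h0 j (Finset.mem_insert_self j s)
    have h1j := h1 j (Finset.mem_insert_self j s)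
    have e : (fun x => ∏ i ∈ insert j s, a i x) = fun x => a j x * ∏ i ∈ s, a i x := by
      funext x
      exact Finset.prod_insert hj
    rw [e]
    refine ⟨haj.mul i1, fun x => ?_, fun x => ?_, fun x v => ?_⟩
    · rw [Finset.prod_insert hj]
      exact mul_nonneg (h0j x) (i2 x)
    · rw [Finset.prod_insert hj]
      exact mul_le_one₀ (h1j x) (i2 x) (i3 x)
    · rw [dd_mul haj i1, Finset.sum_insert hj]
      refine (abs_add_le _ _).trans ?_
      rw [abs_mul, abs_mul, abs_of_nonneg (h0j x), abs_of_nonneg (i2 x)]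
      have k1 : a j x * |dd (d := d) (fun x => ∏ i ∈ s, a i x) x v| ≤
          1 * ∑ i ∈ s, |dd (d := d) (a i) x v| :=
        mul_le_mul (h1j x) (i4 x v) (abs_nonneg _) zero_le_one
      have k2 : (∏ i ∈ s, a i x) * |dd (d := d) (a j) x v| ≤ 1 * |dd (d := d) (a j) x v| :=
        mul_le_mul_of_nonneg_right (i3 x) (abs_nonneg _)
      linarith

end Pool.Agent.K7.H28.SY
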