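import Pool.Agent.K7.H28.SY.AtR

/-!
Forms with singular primitives: all scales.
-/

set_option autoImplicit false

open Set Filter Topology MeasureTheory
open scoped Manifold ContDiff

noncomputable section

namespace Pool.Agent.K7.H28.SY

open Pool.Agent.Y501.SY Pool.Agent.Y484.SY Pool.Agent.Y658.SY

section

variable {d : ℕ} {X : Type} [TopologicalSpace X] [ChartedSpace (E d) X]

theorem Loc.mono {m : ℕ} {F : X → E m} {J : End d X} {K : Set X} {β : Form d X 1}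
    {σ₀ : Form d X 2} {k q ε : ℝ} {z : X} {R C C' r₀ : ℝ}
    (h : Loc F J K β σ₀ k q ε z R C r₀) (hC : C ≤ C') : Loc F J K β σ₀ k q ε z R C' r₀ := by
  have h0 := h.hC
  have hC'0 : 0 < C' := h0.trans_le hC
  refine ⟨h.hR, h0.trans_le hC, h.hr₀, h.tgt, ?_, ?_, ?_, ?_, ?_, ?_, ?_⟩
  · intro r hr hr1
    obtain ⟨P, h1, h2, h3⟩ := h.cover r hr hr1
    refine ⟨P, h1.trans ?_, h2, h3⟩
    have : 0 ≤ r ^ (-k) := Real.rpow_nonneg hr.le _
    gcongr
  · intro p hp hpK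
    refine (h.grow p hp hpK).trans ?_
    have : 0 ≤ (Metric.infDist p (chartAt (E d) z '' (K ∩ (chartAt (E d) z).source))) ^ (-q) :=
      Real.rpow_nonneg Metric.infDist_nonneg _
    gcongr
  · intro p hp u
    refine (h.nm1 p hp u).trans ?_
    have : 0 ≤ nm F ((chartAt (E d) z).symm p)
      (mfderiv (𝓡 d) (𝓡 d) (chartAt (E d) z).symm p u) := norm_nonneg _
    gcongr
  · intro p hp u
    refine (h.nm2 p hp u).trans ?_
    gcongr
  · exact fun p hp => (h.hJ p hp).trans hC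
  · intro p hp v
    refine (h.hσ₀ p hp v).trans ?_
    gcongr
  · intro y hy r hr hr1
    obtain ⟨α, h1, h2, h3, h4⟩ := h.pot y hy r hr hr1
    refine ⟨α, h1, h2, fun p hp u => ?_, fun p hp hpb u => ?_⟩
    · refine le_trans ?_ (h3 p hp u)
      have : C * ‖u‖ ^ 2 ≤ C' * ‖u‖ ^ 2 := by gcongr
      linarith
    · refine (h4 p hp hpb u).trans ?_
      have h5 : C * ‖u‖ ^ 2 ≤ C' * ‖u‖ ^ 2 := by gcongr
      have h6 : 0 ≤ r ^ (2 - 2 * ε) := Real.rpow_nonneg hr.le _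
      have h7 : 0 ≤ extDeriv α p ![u, inChart J z p u] + C * ‖u‖ ^ 2 := by
        have := h3 p hp u
        linarith
      have h8 : extDeriv α p ![u, inChart J z p u] + C * ‖u‖ ^ 2 ≤
          extDeriv α p ![u, inChart J z p u] + C' * ‖u‖ ^ 2 := by linarith
      have h9 : C * r ^ (2 - 2 * ε) ≤ C' * r ^ (2 - 2 * ε) := by gcongr
      exact mul_le_mul h9 h8 h7 (by positivity)

end

section

variable {d : ℕ} {X : Type} [TopologicalSpace X] [ChartedSpace (E d) X]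
  [IsManifold (𝓡 d) ∞ X]

theorem approx [CompactSpace X] [T2Space X] {m : ℕ} {F : X → E m}
    (hF : ContMDiff (𝓡 d) (𝓡 m) ∞ F)
    (hFi : ∀ x, Function.Injective (mfderiv (𝓡 d) (𝓡 m) F x)) {J : End d X}
    (hJ : IsAlmostComplex J) {K : Set X}
    (hK : IsClosed K) {β : Form d X 1} {σ₀ σ : Form d X 2} (hβ : SmoothOff β K)
    (hσ : SmoothOff σ K) (hσ₀ : IsSmooth σ₀) (hD : EqOff σ σ₀ β K) {k q : ℝ} (hk : k < 2)
    (hkq : k + q < 1) (hbox : Box d K k) (hgrow : Grow β K q) {U : Set X} (hU : IsOpen U)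
    (hKU : K ⊆ U) {δ : ℝ} (hδ : 0 < δ) :
    ∃ (α : Form d X 1) (η : Form d X 2) (χ : X → ℝ), IsSmooth α ∧ IsSmooth η ∧ IsD α η ∧
      (∀ x, 0 ≤ χ x) ∧ (∀ x, χ x ≤ 1) ∧ (∀ x, x ∉ U → χ x = 1) ∧ (∀ x ∈ K, χ x = 0) ∧
      ∀ (x : X) (v : TangentSpace (𝓡 d) x),
        χ x * σ x ![v, J x v] - δ * nm F x v ^ 2 ≤ (σ₀ + η) x ![v, J x v] := by
  classical
  set g := min (2 - k) (1 - k - q) with hg
  have hg0 : 0 < g := lt_min (by linarith) (by linarith)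
  have hg1 : g ≤ 2 - k := min_le_left _ _
  have hg2 : g ≤ 1 - k - q := min_le_right _ _
  set ε := min (g / 4) (1 / 2) with hε
  have hε0 : 0 < ε := lt_min (by linarith) (by norm_num)
  have hε1 : ε < 1 := lt_of_le_of_lt (min_le_right _ _) (by norm_num)
  have hε2 : ε ≤ g / 4 := min_le_left _ _
  have ha : 0 < 2 - 2 * ε - k := by linarith
  have hb : 0 < 1 - q - 2 * ε - k := by linarith
  have hloc : ∀ z ∈ K, ∃ R C r₀ : ℝ, Loc F J K β σ₀ k q ε z R C r₀ := fun z hz =>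
    loc hF hFi hJ hσ₀ hε0 hε1 hbox hgrow hz
  choose! R C r₀ hl using hloc
  obtain ⟨t, htK, htc⟩ := hK.isCompact.elim_nhds_subcover (fun z => nbh (d := d) z (R z))
    (fun z hz => (isOpen_nbh z (R z)).mem_nhds (mem_nbh (hl z hz).hR))
  set Cm : ℝ := 1 + ∑ z ∈ t, C z with hCm
  have hCnn : ∀ z ∈ t, 0 ≤ C z := fun z hz => (hl z (htK z hz)).hC.le
  have hCm0 : 0 < Cm := by
    have := Finset.sum_nonneg hCnn
    rw [hCm]; linarith
  have hCle : ∀ z ∈ t, C z ≤ Cm := by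
    intro z hz
    have := Finset.single_le_sum hCnn hz
    rw [hCm]; linarith
  set W : Set X := U ∩ ⋃ z ∈ t, nbh (d := d) z (R z) with hW
  have hWo : IsOpen W := hU.inter (isOpen_biUnion fun z _ => isOpen_nbh z (R z))
  have hKW : K ⊆ W := fun x hx => ⟨hKU hx, htc hx⟩
  obtain ⟨f₀, D, hD0, hf, hf0, hf1, hf2, hf3, hfD⟩ := bump_exists d
  -- smallness of the scale
  have hth : ∀ z ∈ t, ∃ δ' : ℝ, 0 < δ' ∧ ∀ y ∈ Metric.ball (chartAt (E d) z z) (2 * R z),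
      (chartAt (E d) z).symm y ∈ K → ∀ x ∈ (chartAt (E d) z).source,
        dist (chartAt (E d) z x) y < δ' → x ∈ W := fun z hz =>
    thick hK (hl z (htK z hz)) hWo hKW
  choose! δ' hδ' hδ'W using hth
  set A₁ : ℝ := Cm ^ 3 * Cm ^ 3 * (Cm ^ 3 * (t.card * Cm)) with hA₁
  set A₂ : ℝ := 2 * (D * Cm) * (Cm ^ 2 * 3 ^ |q|) * Cm ^ 3 * Cm ^ 3 *
    (Cm ^ 3 * (t.card * Cm)) with hA₂
  have ev0 := small_r (A₁ := A₁) (A₂ := A₂) ha hb hδ
  have ev1 : ∀ᶠ r in 𝓝[>] (0 : ℝ), ∀ z ∈ t, r ≤ r₀ z ∧ 3 * r ≤ R z ∧ 3 * r ≤ δ' z := by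
    rw [Filter.eventually_all_finset]
    intro z hz
    have e1 : ∀ b : ℝ, 0 < b → ∀ᶠ r in 𝓝[>] (0 : ℝ), r ≤ b := fun b hb => by
      filter_upwards [Ioc_mem_nhdsGT hb] with r hr using hr.2
    have hRz := (hl z (htK z hz)).hR
    filter_upwards [e1 (r₀ z) (hl z (htK z hz)).hr₀, e1 (R z / 3) (by linarith),
      e1 (δ' z / 3) (by have := hδ' z hz; linarith)] with r h1 h2 h3
    exact ⟨h1, by linarith, by linarith⟩
  have ev2 : ∀ᶠ r in 𝓝[>] (0 : ℝ), r ≤ 1 := by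
    filter_upwards [Ioc_mem_nhdsGT (one_pos (α := ℝ))] with r hr using hr.2
  obtain ⟨r, hr0, hrt, hr1, hr⟩ := (ev0.and (ev1.and (ev2.and
    (eventually_mem_nhdsWithin (a := (0 : ℝ)) (s := Ioi 0))))).exists
  have hrpos : 0 < r := hr
  have hsc : Sc F J K β σ₀ k q ε t R Cm W r := by
    refine ⟨fun z hz => ⟨r₀ z, (hrt z hz).1, (hl z (htK z hz)).mono (hCle z hz)⟩, htK, hKW,
      fun x hx => ?_, hrpos, hr1, fun z hz => (hrt z hz).2.1, fun z hz y hy hyK x hx hxy => ?_⟩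
    · obtain ⟨z, hz, hxz⟩ := mem_iUnion₂.1 hx.2
      exact ⟨z, hz, hxz⟩
    · exact hδ'W z hz y hy hyK x hx (hxy.trans_le (hrt z hz).2.2)
  obtain ⟨α, η, χ, h1, h2, h3, h4, h5, h6, h7, h8⟩ := atR hK hβ hσ hσ₀ hD hCm0 hsc hD0 hf hf0
    hf1 hf2 hf3 hfD
  refine ⟨α, η, χ, h1, h2, h3, h4, h5, fun x hx => h6 x fun hxW => hx hxW.1, h7,
    fun x v => le_trans ?_ (h8 x v)⟩
  have hn : 0 ≤ nm F x v ^ 2 := sq_nonneg _
  have hE : (Cm ^ 3 + 2 * (D * Cm / r) * (Cm ^ 2 * (3 ^ |q| * r ^ (-q))) * Cm ^ 3) *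
          (Cm ^ 3 * r ^ (2 - 2 * ε)) * (Cm ^ 3 * (t.card * (Cm * r ^ (-k)))) =
      A₁ * r ^ (2 - 2 * ε - k) + A₂ * r ^ (1 - q - 2 * ε - k) := by
    have e1 : r ^ (2 - 2 * ε - k) = r ^ (2 - 2 * ε) * r ^ (-k) := by
      rw [← Real.rpow_add hrpos]
      congr 1
    have e2 : r ^ (1 - q - 2 * ε - k) = r⁻¹ * r ^ (-q) * r ^ (2 - 2 * ε) * r ^ (-k) := by
      rw [← Real.rpow_neg_one, ← Real.rpow_add hrpos, ← Real.rpow_add hrpos,
        ← Real.rpow_add hrpos]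
      congr 1
      ring
    rw [e1, e2, hA₁, hA₂, div_eq_mul_inv]
    ring
  rw [hE]
  have : (A₁ * r ^ (2 - 2 * ε - k) + A₂ * r ^ (1 - q - 2 * ε - k)) * nm F x v ^ 2 ≤
      δ * nm F x v ^ 2 := by gcongr
  linarith

/-- uniform taming near a point off `K` -/
theorem ut_of_tames {J : End d X} (hJ : IsAlmostComplex J) {K : Set X} (hK : IsClosed K)
    {σ : Form d X 2} (hσ : SmoothOff σ K) {x₀ : X} (hx : x₀ ∉ K) (h : TamesAt σ J x₀) :
    UTAt σ J K x₀ := by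
  set c := chartAt (E d) x₀ with hc
  have hxs : x₀ ∈ c.source := mem_chart_source (E d) x₀
  have hxt : c x₀ ∈ c.target := mem_chart_target (E d) x₀
  have hU : IsOpen (c.target ∩ c.symm ⁻¹' Kᶜ) := c.isOpen_inter_preimage_symm hK.isOpen_compl
  have hxU : c x₀ ∈ c.target ∩ c.symm ⁻¹' Kᶜ := by
    refine ⟨hxt, ?_⟩
    rw [mem_preimage, c.left_inv hxs]
    exact hx
  have h1 : ContinuousOn (pb c.symm σ) (c.target ∩ c.symm ⁻¹' Kᶜ) :=
    (hσ _ c.symm hU ((contMDiffOn_chart_symm).mono inter_subset_left)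
      (fun p hp => hp.2)).continuousOn
  have h2 : ContinuousOn (fun w : E d × E d =>
      pb c.symm σ w.1 ![w.2, inChart J x₀ w.1 w.2])
      ((c.target ∩ c.symm ⁻¹' Kᶜ) ×ˢ univ) := by
    have e1 : ContinuousOn (fun w : E d × E d => pb c.symm σ w.1)
        ((c.target ∩ c.symm ⁻¹' Kᶜ) ×ˢ univ) :=
      h1.comp continuousOn_fst fun w hw => hw.1
    have e2 : ContinuousOn (fun w : E d × E d => inChart J x₀ w.1 w.2)
        ((c.target ∩ c.symm ⁻¹' Kᶜ) ×ˢ univ) :=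
      ((hJ.cont x₀).comp continuousOn_fst fun w hw => hw.1.1).clm_apply continuousOn_snd
    have e3 : ContinuousOn (fun w : E d × E d => (![w.2, inChart J x₀ w.1 w.2] : Fin 2 → E d))
        ((c.target ∩ c.symm ⁻¹' Kᶜ) ×ˢ univ) := by
      refine continuousOn_pi.2 fun i => ?_
      fin_cases i
      · exact continuousOn_snd
      · exact e2
    have e4 : Continuous (fun p : ((E d) [⋀^Fin 2]→L[ℝ] ℝ) × (Fin 2 → E d) => p.1 p.2) :=
      continuous_eval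
    exact e4.comp_continuousOn (e1.prodMk e3)
  have hpos0 : ∀ v : E d, v ≠ 0 → 0 < Pool.Agent.Y455.SY.Q σ J x₀ (c x₀) v := by
    rw [← Pool.Agent.Y455.SY.tames_iff σ J x₀ hxt, c.left_inv hxs]
    exact h
  -- the minimum over the sphere
  have hS : IsCompact (Metric.sphere (0 : E d) 1) := isCompact_sphere _ _
  have hmin : ∃ b : ℝ, 0 < b ∧ ∀ v ∈ Metric.sphere (0 : E d) 1,
      b < Pool.Agent.Y455.SY.Q σ J x₀ (c x₀) v := by
    rcases (Metric.sphere (0 : E d) 1).eq_empty_or_nonempty with he | he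
    · exact ⟨1, one_pos, fun v hv => by rw [he] at hv; exact hv.elim⟩
    · have hc1 : ContinuousOn (fun v : E d => Pool.Agent.Y455.SY.Q σ J x₀ (c x₀) v)
          (Metric.sphere (0 : E d) 1) := by
        have e1 : ContinuousOn (fun v : E d => ((c x₀, v) : E d × E d))
            (Metric.sphere (0 : E d) 1) := (continuous_const.prodMk continuous_id).continuousOn
        exact h2.comp e1 fun v _ => ⟨hxU, mem_univ v⟩
      obtain ⟨v₀, hv₀, hv₁⟩ := hS.exists_isMinOn he hc1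
      have hv₀0 : v₀ ≠ 0 := by
        rintro rfl
        simp at hv₀
      refine ⟨Pool.Agent.Y455.SY.Q σ J x₀ (c x₀) v₀ / 2, half_pos (hpos0 v₀ hv₀0),
        fun v hv => ?_⟩
      have e1 : Pool.Agent.Y455.SY.Q σ J x₀ (c x₀) v₀ ≤
        Pool.Agent.Y455.SY.Q σ J x₀ (c x₀) v := hv₁ hv
      have := hpos0 v₀ hv₀0
      linarith
  obtain ⟨b, hb, hbS⟩ := hmin
  have hopen : IsOpen (((c.target ∩ c.symm ⁻¹' Kᶜ) ×ˢ univ) ∩
      (fun w : E d × E d => pb c.symm σ w.1 ![w.2, inChart J x₀ w.1 w.2]) ⁻¹' Ioi b) :=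
    h2.isOpen_inter_preimage (hU.prod isOpen_univ) isOpen_Ioi
  obtain ⟨u, v', hu, -, hcu, hSv, huv⟩ := generalized_tube_lemma (isCompact_singleton (x := c x₀))
    hS hopen (by
      rintro ⟨p, v⟩ ⟨hp, hv⟩
      have hp' : p = c x₀ := hp
      subst hp'
      exact ⟨⟨hxU, mem_univ _⟩, hbS v hv⟩)
  refine ⟨b, hb, ?_⟩
  filter_upwards [hu.mem_nhds (hcu (mem_singleton _))] with p hp hpK v
  by_cases hv : v = 0
  · subst hv
    have : pb c.symm σ p ![0, inChart J x₀ p 0] = 0 :=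
      (pb c.symm σ p).map_coord_zero 0 rfl
    rw [this, norm_zero]
    simp
  · have hn : 0 < ‖v‖ := norm_pos_iff.2 hv
    have hmem : ‖v‖⁻¹ • v ∈ Metric.sphere (0 : E d) 1 := by
      rw [mem_sphere_zero_iff_norm, norm_smul, norm_inv, norm_norm, inv_mul_cancel₀ hn.ne']
    have h3 := (huv (mk_mem_prod hp (hSv hmem))).2
    have h4 : b < Pool.Agent.Y455.SY.Q σ J x₀ p (‖v‖⁻¹ • v) := h3
    rw [Pool.Agent.Y455.SY.Q_smul] at h4
    have h5 : b * ‖v‖ ^ 2 < Pool.Agent.Y455.SY.Q σ J x₀ p v := by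
      have h6 : (‖v‖⁻¹) ^ 2 * ‖v‖ ^ 2 = 1 := by
        rw [← mul_pow, inv_mul_cancel₀ hn.ne', one_pow]
      calc b * ‖v‖ ^ 2 < ((‖v‖⁻¹) ^ 2 * Pool.Agent.Y455.SY.Q σ J x₀ p v) * ‖v‖ ^ 2 := by
            gcongr
        _ = ((‖v‖⁻¹) ^ 2 * ‖v‖ ^ 2) * Pool.Agent.Y455.SY.Q σ J x₀ p v := by ring
        _ = Pool.Agent.Y455.SY.Q σ J x₀ p v := by rw [h6, one_mul]
    exact h5.le

end

end Pool.Agent.K7.H28.SY
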