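import Pool.Agent.K7.H28.SY.Prd

/-!
Local data for forms with singular primitives.
-/

set_option autoImplicit false

open Set Filter Topology
open scoped Manifold ContDiff

noncomputable section

namespace Pool.Agent.K7.H28.SY

open Pool.Agent.Y501.SY Pool.Agent.Y484.SY Pool.Agent.Y658.SY

section

variable {d : ℕ} {X : Type} [TopologicalSpace X] [ChartedSpace (E d) X]

/-- Near each point of `K`, in the chart, `K` is covered by at most `C r ^ (-k)` balls of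
radius `r`. -/
def Box (d : ℕ) {X : Type} [TopologicalSpace X] [ChartedSpace (E d) X] (K : Set X) (k : ℝ) :
    Prop :=
  ∀ x₀ ∈ K, ∃ N ∈ 𝓝 x₀, ∃ C : ℝ, ∀ r : ℝ, 0 < r → r < 1 → ∃ F : Finset (E d),
    (F.card : ℝ) ≤ C * r ^ (-k) ∧
      chartAt (E d) x₀ '' (K ∩ N ∩ (chartAt (E d) x₀).source) ⊆ ⋃ y ∈ F, Metric.ball y r

/-- `β` grows at most like `dist(·, K) ^ (-q)` near `K`. -/
def Grow (β : Form d X 1) (K : Set X) (q : ℝ) : Prop :=
  ∀ x₀ ∈ K, ∃ C : ℝ, ∀ᶠ p in 𝓝 (chartAt (E d) x₀ x₀), (chartAt (E d) x₀).symm p ∉ K →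
    ‖pb (chartAt (E d) x₀).symm β p‖ ≤
      C * (Metric.infDist p (chartAt (E d) x₀ '' (K ∩ (chartAt (E d) x₀).source))) ^ (-q)

/-- local data near the point `z` -/
structure Loc {m : ℕ} (F : X → E m) (J : End d X) (K : Set X) (β : Form d X 1)
    (σ₀ : Form d X 2) (k q ε : ℝ) (z : X) (R C r₀ : ℝ) : Prop where
  hR : 0 < R
  hC : 0 < C
  hr₀ : 0 < r₀
  tgt : Metric.closedBall (chartAt (E d) z z) (4 * R) ⊆ (chartAt (E d) z).target
  cover : ∀ r : ℝ, 0 < r → r ≤ r₀ → ∃ P : Finset (E d), (P.card : ℝ) ≤ C * r ^ (-k) ∧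
    (∀ y ∈ P, y ∈ Metric.ball (chartAt (E d) z z) (2 * R) ∧ (chartAt (E d) z).symm y ∈ K) ∧
    ∀ p ∈ Metric.ball (chartAt (E d) z z) (2 * R), (chartAt (E d) z).symm p ∈ K →
      ∃ y ∈ P, dist p y < r
  grow : ∀ p ∈ Metric.closedBall (chartAt (E d) z z) (4 * R), (chartAt (E d) z).symm p ∉ K →
    ‖pb (chartAt (E d) z).symm β p‖ ≤
      C * (Metric.infDist p (chartAt (E d) z '' (K ∩ (chartAt (E d) z).source))) ^ (-q)
  nm1 : ∀ p ∈ Metric.closedBall (chartAt (E d) z z) (4 * R), ∀ u : E d,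
    ‖u‖ ≤ C * nm F ((chartAt (E d) z).symm p) (mfderiv (𝓡 d) (𝓡 d) (chartAt (E d) z).symm p u)
  nm2 : ∀ p ∈ Metric.closedBall (chartAt (E d) z z) (4 * R), ∀ u : E d,
    nm F ((chartAt (E d) z).symm p) (mfderiv (𝓡 d) (𝓡 d) (chartAt (E d) z).symm p u) ≤ C * ‖u‖
  hJ : ∀ p ∈ Metric.closedBall (chartAt (E d) z z) (4 * R), ‖inChart J z p‖ ≤ C
  hσ₀ : ∀ p ∈ Metric.closedBall (chartAt (E d) z z) (4 * R), ∀ v : E d,
    |pb (chartAt (E d) z).symm σ₀ p ![v, inChart J z p v]| ≤ C * ‖v‖ ^ 2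
  pot : ∀ y ∈ Metric.closedBall (chartAt (E d) z z) (2 * R), ∀ r : ℝ, 0 < r → r ≤ r₀ →
      ∃ α : E d → (E d) [⋀^Fin 1]→L[ℝ] ℝ, ContDiff ℝ ∞ α ∧
        (∀ p, p ∉ Metric.closedBall y R → α p = 0) ∧
        (∀ p ∈ Metric.closedBall y R, ∀ u,
          -C * ‖u‖ ^ 2 ≤ extDeriv α p ![u, inChart J z p u]) ∧
        ∀ p ∈ Metric.closedBall y R, p ∈ Metric.ball y (3 * r) → ∀ u,
          ‖u‖ ^ 2 ≤ C * r ^ (2 - 2 * ε) * (extDeriv α p ![u, inChart J z p u] + C * ‖u‖ ^ 2)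

end

section

variable {d : ℕ} {X : Type} [TopologicalSpace X] [ChartedSpace (E d) X]
  [IsManifold (𝓡 d) ∞ X]

theorem inChart_sq {J : End d X} (hJ : IsAlmostComplex J) (z : X) {p : E d}
    (hp : p ∈ (chartAt (E d) z).target) (u : E d) :
    inChart J z p (inChart J z p u) = -u := by
  have h1 : Pool.Agent.Y455.SY.A z p (inChart J z p u) =
      J ((chartAt (E d) z).symm p) (Pool.Agent.Y455.SY.A z p u) :=
    Pool.Agent.Y455.SY.AB z hp _
  have h2 : inChart J z p (inChart J z p u) = Pool.Agent.Y455.SY.B z p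
      (J ((chartAt (E d) z).symm p) (Pool.Agent.Y455.SY.A z p (inChart J z p u))) := rfl
  rw [h2, h1]
  have h3 := hJ.sq ((chartAt (E d) z).symm p) (Pool.Agent.Y455.SY.A z p u)
  have h4 : Pool.Agent.Y455.SY.B z p (J ((chartAt (E d) z).symm p)
      (J ((chartAt (E d) z).symm p) (Pool.Agent.Y455.SY.A z p u))) =
      Pool.Agent.Y455.SY.B z p (-(Pool.Agent.Y455.SY.A z p u)) :=
    congrArg (fun w => Pool.Agent.Y455.SY.B z p w) h3
  rw [h4, map_neg, Pool.Agent.Y455.SY.BA z hp]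

theorem loc [T2Space X] {m : ℕ} {F : X → E m} (hF : ContMDiff (𝓡 d) (𝓡 m) ∞ F)
    (hFi : ∀ x, Function.Injective (mfderiv (𝓡 d) (𝓡 m) F x)) {J : End d X}
    (hJ : IsAlmostComplex J) {K : Set X} {β : Form d X 1} {σ₀ : Form d X 2}
    (hσ₀ : IsSmooth σ₀) {k q ε : ℝ} (hε : 0 < ε) (hε1 : ε < 1) (hbox : Box d K k)
    (hgrow : Grow β K q) {z : X} (hz : z ∈ K) :
    ∃ R C r₀ : ℝ, Loc F J K β σ₀ k q ε z R C r₀ := by
  set c := chartAt (E d) z with hc
  obtain ⟨N, hN, C₁, hcov⟩ := hbox z hz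
  obtain ⟨C₂, hgr⟩ := hgrow z hz
  have hzs : z ∈ c.source := mem_chart_source (E d) z
  have hzt : c z ∈ c.target := mem_chart_target (E d) z
  have hN2 : ∀ᶠ p in 𝓝 (c z), c.symm p ∈ N := by
    have h1 : ContinuousAt c.symm (c z) := c.continuousAt_symm hzt
    have h2 : N ∈ 𝓝 (c.symm (c z)) := by rwa [c.left_inv hzs]
    exact h1.eventually h2
  have hall : ∀ᶠ p in 𝓝 (c z), p ∈ c.target ∧ c.symm p ∈ N ∧ (c.symm p ∉ K →
    ‖pb c.symm β p‖ ≤ C₂ * (Metric.infDist p (c '' (K ∩ c.source))) ^ (-q)) := by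
    filter_upwards [c.open_target.mem_nhds hzt, hN2, hgr] with p h1 h2 h3 using ⟨h1, h2, h3⟩
  obtain ⟨R', hR', hball⟩ := Metric.nhds_basis_closedBall.mem_iff.1 hall
  set R := R' / 4 with hR
  have hR0 : 0 < R := by positivity
  have hR4 : 4 * R = R' := by rw [hR]; ring
  have hcb : IsCompact (Metric.closedBall (c z) (4 * R)) := isCompact_closedBall _ _
  have htgt : Metric.closedBall (c z) (4 * R) ⊆ c.target := by
    rw [hR4]
    exact fun p hp => (hball hp).1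
  obtain ⟨c₁, C₃, hc₁, hC₃, hnm⟩ := Pool.Agent.Y44.SY.t_IMM d m X F hF hFi z _ hcb htgt
  obtain ⟨⟨C₄, hC₄, hqb⟩, -⟩ := Pool.Agent.Y44.SY.t_QB d X J hJ σ₀ hσ₀ z _ hcb htgt
  obtain ⟨r₁, C₅, hr₁, hC₅, hpot⟩ := pot (V := c.target)
    (isCompact_closedBall (c z) (2 * R)) hR0 (by
      intro y hy p hp
      apply htgt
      rw [Metric.mem_closedBall] at hy hp ⊢
      have := dist_triangle p y (c z)
      linarith) (hJ.cont z) (fun p hp u => inChart_sq hJ z hp u) hε hε1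
  set C := max (max (max (C₁ * 2 ^ k) C₂) (max c₁⁻¹ C₃)) (max C₄ C₅) with hC
  have hC0 : 0 < C := lt_of_lt_of_le hC₅ ((le_max_right _ _).trans (le_max_right _ _))
  have k1 : C₁ * 2 ^ k ≤ C :=
    ((le_max_left _ _).trans (le_max_left _ _)).trans (le_max_left _ _)
  have k2 : C₂ ≤ C := ((le_max_right _ _).trans (le_max_left _ _)).trans (le_max_left _ _)
  have k3 : c₁⁻¹ ≤ C := ((le_max_left _ _).trans (le_max_right _ _)).trans (le_max_left _ _)
  have k4 : C₃ ≤ C := ((le_max_right _ _).trans (le_max_right _ _)).trans (le_max_left _ _)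
  have k5 : C₄ ≤ C := (le_max_left _ _).trans (le_max_right _ _)
  have k6 : C₅ ≤ C := (le_max_right _ _).trans (le_max_right _ _)
  refine ⟨R, C, min r₁ 1, ⟨hR0, hC0, by positivity, htgt, ?_, ?_, ?_, ?_, ?_, ?_, ?_⟩⟩
  · intro r hr hr1
    obtain ⟨P₀, hP₀, hcP⟩ := hcov (r / 2) (by positivity) (by
      have : r ≤ 1 := hr1.trans (min_le_right _ _)
      linarith)
    classical
    set good : E d → Prop := fun y => ∃ p ∈ Metric.ball (c z) (2 * R), c.symm p ∈ K ∧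
      dist p y < r / 2 with hgood
    let g : E d → E d := fun y => if h : good y then h.choose else y
    refine ⟨(P₀.filter good).image g, ?_, ?_, ?_⟩
    · have h1 : (((P₀.filter good).image g).card : ℝ) ≤ (P₀.card : ℝ) := by
        exact_mod_cast Finset.card_image_le.trans (Finset.card_filter_le _ _)
      refine h1.trans (hP₀.trans ?_)
      have h2 : (r / 2) ^ (-k) = r ^ (-k) * 2 ^ k := by
        rw [Real.div_rpow hr.le (by norm_num), Real.rpow_neg (by norm_num : (0 : ℝ) ≤ 2),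
          div_inv_eq_mul]
      rw [h2]
      have h3 : 0 ≤ r ^ (-k) := Real.rpow_nonneg hr.le _
      calc C₁ * (r ^ (-k) * 2 ^ k) = (C₁ * 2 ^ k) * r ^ (-k) := by ring
        _ ≤ C * r ^ (-k) := by gcongr
    · intro y hy
      obtain ⟨y', hy', rfl⟩ := Finset.mem_image.1 hy
      have hg := (Finset.mem_filter.1 hy').2
      have hgy : g y' = hg.choose := dif_pos hg
      rw [hgy]
      exact ⟨hg.choose_spec.1, hg.choose_spec.2.1⟩
    · intro p hp hpK
      have hpt : p ∈ c.target := by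
        apply htgt
        rw [Metric.mem_ball] at hp
        rw [Metric.mem_closedBall]
        linarith
      have hpN : c.symm p ∈ N := by
        refine (hball ?_).2.1
        rw [Metric.mem_ball] at hp
        rw [Metric.mem_closedBall]
        linarith
      have h1 : p ∈ c '' (K ∩ N ∩ c.source) :=
        ⟨c.symm p, ⟨⟨hpK, hpN⟩, c.map_target hpt⟩, c.right_inv hpt⟩
      obtain ⟨y', hy', hpy⟩ := mem_iUnion₂.1 (hcP h1)
      rw [Metric.mem_ball] at hpy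
      have hg : good y' := ⟨p, hp, hpK, hpy⟩
      have hgy : g y' = hg.choose := dif_pos hg
      refine ⟨g y', Finset.mem_image.2 ⟨y', Finset.mem_filter.2 ⟨hy', hg⟩, rfl⟩, ?_⟩
      rw [hgy]
      have h2 := hg.choose_spec.2.2
      have h3 := dist_triangle p y' hg.choose
      rw [dist_comm y'] at h3
      linarith
  · intro p hp hpK
    refine ((hball (by rwa [hR4] at hp)).2.2 hpK).trans ?_
    have : 0 ≤ (Metric.infDist p (c '' (K ∩ c.source))) ^ (-q) :=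
      Real.rpow_nonneg Metric.infDist_nonneg _
    gcongr
  · intro p hp u
    have h1 := (hnm p hp u).1
    have h2 : 0 ≤ nm F (c.symm p) (mfderiv (𝓡 d) (𝓡 d) c.symm p u) := norm_nonneg _
    calc ‖u‖ = c₁⁻¹ * (c₁ * ‖u‖) := by field_simp
      _ ≤ c₁⁻¹ * nm F (c.symm p) (mfderiv (𝓡 d) (𝓡 d) c.symm p u) := by gcongr
      _ ≤ C * nm F (c.symm p) (mfderiv (𝓡 d) (𝓡 d) c.symm p u) := by gcongr
  · intro p hp u
    refine (hnm p hp u).2.trans ?_
    gcongr
  · intro p hp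
    exact (hqb p hp).2.1.trans k5
  · intro p hp v
    refine ((hqb p hp).2.2 v).trans ?_
    gcongr
  · intro y hy r hr hr1
    obtain ⟨α, h1, h2, h3, h4⟩ := hpot y hy r hr (hr1.trans (min_le_left _ _))
    refine ⟨α, h1, h2, fun p hp u => ?_, fun p hp hpb u => ?_⟩
    · refine le_trans ?_ (h3 p hp u)
      have : C₅ * ‖u‖ ^ 2 ≤ C * ‖u‖ ^ 2 := by gcongr
      linarith
    · refine (h4 p hp hpb u).trans ?_
      have h5 : C₅ * ‖u‖ ^ 2 ≤ C * ‖u‖ ^ 2 := by gcongr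
      have h6 : 0 ≤ r ^ (2 - 2 * ε) := Real.rpow_nonneg hr.le _
      have h7 : 0 ≤ extDeriv α p ![u, inChart J z p u] + C₅ * ‖u‖ ^ 2 := by
        have := h3 p hp u
        linarith
      have h8 : extDeriv α p ![u, inChart J z p u] + C₅ * ‖u‖ ^ 2 ≤
          extDeriv α p ![u, inChart J z p u] + C * ‖u‖ ^ 2 := by linarith
      have h9 : C₅ * r ^ (2 - 2 * ε) ≤ C * r ^ (2 - 2 * ε) := by gcongr
      exact mul_le_mul h9 h8 h7 (by positivity)

end

end Pool.Agent.K7.H28.SY
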