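import Pool.Agent.K7.H28.SY.Loc1

/-!
Local data for forms with singular primitives: consequences.
-/

set_option autoImplicit false

open Set Filter Topology
open scoped Manifold ContDiff

noncomputable section

namespace Pool.Agent.K7.H28.SY

open Pool.Agent.Y501.SY Pool.Agent.Y484.SY Pool.Agent.Y658.SY

/-- a fixed bump function and the bound of its differential -/
theorem bump_exists (d : ℕ) : ∃ (f : E d → ℝ) (D : ℝ), 0 < D ∧ ContDiff ℝ ∞ f ∧
    (∀ p, 0 ≤ f p) ∧ (∀ p, f p ≤ 1) ∧ (∀ p, ‖p‖ ≤ 2 → f p = 1) ∧ (∀ p, 3 ≤ ‖p‖ → f p = 0) ∧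
    ∀ p, ‖fderiv ℝ f p‖ ≤ D := by
  let f₀ : ContDiffBump (0 : E d) := ⟨2, 3, by norm_num, by norm_num⟩
  have hsm : ContDiff ℝ ∞ (f₀ : E d → ℝ) := f₀.contDiff
  have hc : Continuous (fderiv ℝ (f₀ : E d → ℝ)) := hsm.continuous_fderiv (by simp)
  have hcs : HasCompactSupport (fderiv ℝ (f₀ : E d → ℝ)) := f₀.hasCompactSupport.fderiv ℝ
  obtain ⟨D, hD⟩ := hc.bounded_above_of_compact_support hcs
  refine ⟨f₀, max D 1, by positivity, hsm, fun p => f₀.nonneg, fun p => f₀.le_one,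
    fun p hp => f₀.one_of_mem_closedBall (by simpa using hp), fun p hp => ?_,
    fun p => (hD p).trans (le_max_left _ _)⟩
  exact f₀.zero_of_le_dist (by simpa using hp)

section

variable {d : ℕ} {X : Type} [TopologicalSpace X] [ChartedSpace (E d) X]
  [IsManifold (𝓡 d) ∞ X] {m : ℕ} {F : X → E m} {J : End d X} {K : Set X} {β : Form d X 1}
  {σ₀ : Form d X 2} {k q ε : ℝ} {z : X} {R C r₀ : ℝ}

/-- the vector `v` in the chart -/
theorem Loc.vec (h : Loc F J K β σ₀ k q ε z R C r₀) {x : X}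
    (hx : x ∈ (chartAt (E d) z).source)
    (hxR : chartAt (E d) z x ∈ Metric.closedBall (chartAt (E d) z z) (4 * R))
    (v : TangentSpace (𝓡 d) x) :
    ∃ u : E d, mfderiv (𝓡 d) (𝓡 d) (chartAt (E d) z) x v = u ∧ ‖u‖ ≤ C * nm F x v ∧
    nm F x v ≤ C * ‖u‖ ∧
    (∀ τ : Form d X 2, τ x ![v, J x v] = pb (chartAt (E d) z).symm τ (chartAt (E d) z x)
      ![u, inChart J z (chartAt (E d) z x) u]) ∧
    (∀ τ : Form d X 1, τ x ![v] = pb (chartAt (E d) z).symm τ (chartAt (E d) z x) ![u]) ∧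
    mfderiv (𝓡 d) (𝓡 d) (chartAt (E d) z) x (J x v) = inChart J z (chartAt (E d) z x) u := by
  set c := chartAt (E d) z with hc
  obtain ⟨p, hp, hpt, rfl⟩ : ∃ p, p ∈ Metric.closedBall (c z) (4 * R) ∧ p ∈ c.target ∧
      c.symm p = x := ⟨c x, hxR, c.map_source hx, c.left_inv hx⟩
  rw [c.right_inv hpt]
  obtain ⟨u, hu⟩ : ∃ u : E d, u = Pool.Agent.Y455.SY.B z p v := ⟨_, rfl⟩
  have hAu : Pool.Agent.Y455.SY.A z p u = v := by
    rw [hu]
    exact Pool.Agent.Y455.SY.AB z hpt v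
  have h1 := h.nm1 p hp u
  have h2 := h.nm2 p hp u
  change ‖u‖ ≤ C * nm F (c.symm p) (Pool.Agent.Y455.SY.A z p u) at h1
  change nm F (c.symm p) (Pool.Agent.Y455.SY.A z p u) ≤ C * ‖u‖ at h2
  rw [hAu] at h1 h2
  refine ⟨u, hu.symm, h1, h2, fun τ => ?_, fun τ => ?_, ?_⟩
  · have h3 := Pool.Agent.Y455.SY.Q_eq τ J z hpt u
    rw [hAu] at h3
    exact h3.symm
  · have h4 : pb c.symm τ p ![u] = τ (c.symm p) ![Pool.Agent.Y455.SY.A z p u] := by
      change τ (c.symm p) (fun i => Pool.Agent.Y455.SY.A z p ((![u] : Fin 1 → E d) i)) = _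
      congr 1
      funext i
      fin_cases i
      rfl
    rw [hAu] at h4
    exact h4.symm
  · change Pool.Agent.Y455.SY.B z p (J (c.symm p) v) = inChart J z p u
    rw [← hAu]
    rfl

theorem Loc.bump [T2Space X] (h : Loc F J K β σ₀ k q ε z R C r₀) {f₀ : E d → ℝ} {D : ℝ}
    (hD : 0 < D) (hf : ContDiff ℝ ∞ f₀) (hf0 : ∀ p, 0 ≤ f₀ p) (hf1 : ∀ p, f₀ p ≤ 1)
    (hf2 : ∀ p, ‖p‖ ≤ 2 → f₀ p = 1) (hf3 : ∀ p, 3 ≤ ‖p‖ → f₀ p = 0)
    (hfD : ∀ p, ‖fderiv ℝ f₀ p‖ ≤ D) {y : E d}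
    (hy : y ∈ Metric.ball (chartAt (E d) z z) (2 * R)) {r : ℝ} (hr : 0 < r) (hrR : 3 * r ≤ R) :
    ∃ f : X → ℝ, SmoothFun (d := d) f ∧ (∀ x, 0 ≤ f x) ∧ (∀ x, f x ≤ 1) ∧
      (∀ x ∈ (chartAt (E d) z).source, dist (chartAt (E d) z x) y ≤ 2 * r → f x = 1) ∧
      (∀ x, f x ≠ 0 → x ∈ (chartAt (E d) z).source ∧ dist (chartAt (E d) z x) y < 3 * r) ∧
      (∀ x ∈ (chartAt (E d) z).source, dist (chartAt (E d) z x) y < 3 * r →
        ∀ v : TangentSpace (𝓡 d) x, |dd (d := d) f x v| ≤ D * C / r * nm F x v) ∧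
      (∀ x, ¬ (x ∈ (chartAt (E d) z).source ∧ dist (chartAt (E d) z x) y < 3 * r) →
        ∀ v : TangentSpace (𝓡 d) x, dd (d := d) f x v = 0) := by
  set c := chartAt (E d) z with hc
  set b : E d → ℝ := fun p => f₀ (r⁻¹ • (p - y)) with hb
  have hlin : ContDiff ℝ ∞ (fun p : E d => r⁻¹ • (p - y)) :=
    ContDiff.const_smul r⁻¹ (contDiff_id.sub contDiff_const)
  have hbs : ContDiff ℝ ∞ b := hf.comp hlin
  have hnorm : ∀ p : E d, ‖r⁻¹ • (p - y)‖ = dist p y / r := by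
    intro p
    rw [norm_smul, norm_inv, Real.norm_of_nonneg hr.le, dist_eq_norm, inv_mul_eq_div]
  have hball : Metric.closedBall y (3 * r) ⊆ Metric.closedBall (c z) (4 * R) := by
    intro p hp
    rw [Metric.mem_ball] at hy
    rw [Metric.mem_closedBall] at hp ⊢
    have := dist_triangle p y (c z)
    have := h.hR
    linarith
  have hN't : Metric.closedBall y (3 * r) ⊆ c.target := hball.trans h.tgt
  have hb0 : ∀ p, p ∉ Metric.closedBall y (3 * r) → b p = 0 := by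
    intro p hp
    rw [Metric.mem_closedBall, not_le] at hp
    apply hf3
    rw [hnorm, le_div_iff₀ hr]
    exact hp.le
  have hsm := extF_smooth (x₀ := z) (isCompact_closedBall y (3 * r)) hN't hbs hb0
  have hnn : ∀ x, 0 ≤ extF z b x := by
    intro x
    by_cases hx : x ∈ c.source
    · rw [extF_in hx]; exact hf0 _
    · rw [extF_out hx]
  refine ⟨extF z b, hsm, hnn, ?_, ?_, ?_, ?_, ?_⟩
  · intro x
    by_cases hx : x ∈ c.source
    · rw [extF_in hx]; exact hf1 _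
    · rw [extF_out hx]; exact zero_le_one
  · intro x hx hxy
    rw [extF_in hx]
    apply hf2
    rw [hnorm, div_le_iff₀ hr]
    exact hxy
  · intro x hx
    have hxs : x ∈ c.source := by
      by_contra hcon
      exact hx (extF_out hcon)
    refine ⟨hxs, ?_⟩
    by_contra hcon
    apply hx
    rw [extF_in hxs]
    apply hf3
    rw [hnorm, le_div_iff₀ hr]
    exact not_lt.1 hcon
  · intro x hx hxy v
    rw [dd_extF hbs hx]
    have hin : c x ∈ Metric.closedBall (c z) (4 * R) :=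
      hball (Metric.mem_closedBall.2 hxy.le)
    obtain ⟨u, hu, h1, -⟩ := h.vec hx hin v
    have hlin' : HasFDerivAt (fun p : E d => r⁻¹ • (p - y)) (r⁻¹ • ContinuousLinearMap.id ℝ (E d))
        (c x) := ((hasFDerivAt_id (c x)).sub_const y).const_smul r⁻¹
    have h2 : fderiv ℝ b (c x) =
        (fderiv ℝ f₀ (r⁻¹ • (c x - y))).comp (r⁻¹ • ContinuousLinearMap.id ℝ (E d)) :=
      ((hf.contDiffAt.differentiableAt (by simp)).hasFDerivAt.comp (c x) hlin').fderiv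
    rw [hu]
    have h3 : fderiv ℝ b (c x) u = r⁻¹ * fderiv ℝ f₀ (r⁻¹ • (c x - y)) u := by
      rw [h2]
      change fderiv ℝ f₀ (r⁻¹ • (c x - y)) (r⁻¹ • u) = _
      rw [map_smul, smul_eq_mul]
    rw [h3, abs_mul, abs_of_pos (inv_pos.2 hr)]
    have h4 : |fderiv ℝ f₀ (r⁻¹ • (c x - y)) u| ≤ D * ‖u‖ :=
      ((fderiv ℝ f₀ (r⁻¹ • (c x - y))).le_opNorm u).trans (by
        gcongr
        exact hfD _)
    calc r⁻¹ * |fderiv ℝ f₀ (r⁻¹ • (c x - y)) u| ≤ r⁻¹ * (D * (C * nm F x v)) := by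
          have : 0 < r⁻¹ := inv_pos.2 hr
          gcongr
          exact h4.trans (by gcongr)
      _ = D * C / r * nm F x v := by
        rw [div_eq_mul_inv]
        ring
  · intro x hx v
    refine dd_zero_of_min hsm hnn x ?_ v
    by_cases hxs : x ∈ c.source
    · rw [extF_in hxs]
      apply hf3
      rw [hnorm, le_div_iff₀ hr]
      by_contra hcon
      exact hx ⟨hxs, not_le.1 hcon⟩
    · exact extF_out hxs

theorem Loc.potX [T2Space X] (h : Loc F J K β σ₀ k q ε z R C r₀) {y : E d}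
    (hy : y ∈ Metric.ball (chartAt (E d) z z) (2 * R)) {r : ℝ} (hr : 0 < r) (hrr : r ≤ r₀)
    (hrR : 3 * r ≤ R) :
    ∃ (α : Form d X 1) (η : Form d X 2), IsSmooth α ∧ IsSmooth η ∧ IsD α η ∧
      (∀ (x : X) (v : TangentSpace (𝓡 d) x), 0 ≤ η x ![v, J x v] + C ^ 3 * nm F x v ^ 2) ∧
      ∀ x ∈ (chartAt (E d) z).source, dist (chartAt (E d) z x) y < 3 * r →
        ∀ v : TangentSpace (𝓡 d) x, nm F x v ^ 2 ≤
          C ^ 3 * r ^ (2 - 2 * ε) * (η x ![v, J x v] + C ^ 3 * nm F x v ^ 2) := by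
  set c := chartAt (E d) z with hc
  obtain ⟨a, ha, ha0, ha1, ha2⟩ := h.pot y (Metric.ball_subset_closedBall hy) r hr hrr
  have hball : Metric.closedBall y R ⊆ Metric.closedBall (c z) (4 * R) := by
    intro p hp
    rw [Metric.mem_ball] at hy
    rw [Metric.mem_closedBall] at hp ⊢
    have := dist_triangle p y (c z)
    have := h.hR
    linarith
  have hN't : Metric.closedBall y R ⊆ c.target := hball.trans h.tgt
  obtain ⟨α, η, g1, g2, g3, g4, g5, g6⟩ := ext_form (x₀ := z) (isCompact_closedBall y R) hN't ha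
    ha0
  have hC := h.hC
  -- the value in the chart
  have key : ∀ x ∈ c.source, c x ∈ Metric.closedBall y R → ∀ v : TangentSpace (𝓡 d) x,
      ∃ u : E d, ‖u‖ ≤ C * nm F x v ∧ nm F x v ≤ C * ‖u‖ ∧
        η x ![v, J x v] = extDeriv a (c x) ![u, inChart J z (c x) u] := by
    intro x hx hxy v
    obtain ⟨u, -, h1, h2, h3, -, -⟩ := h.vec hx (hball hxy) v
    refine ⟨u, h1, h2, ?_⟩
    rw [h3, g6 (c x) (c.map_source hx)]
  refine ⟨α, η, g1, g2, g3, fun x v => ?_, fun x hx hxy v => ?_⟩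
  · by_cases hx : x ∈ c.source ∧ c x ∈ Metric.closedBall y R
    · obtain ⟨u, h1, h2, h3⟩ := key x hx.1 hx.2 v
      rw [h3]
      have h4 := ha1 (c x) hx.2 u
      have h5 : C * ‖u‖ ^ 2 ≤ C ^ 3 * nm F x v ^ 2 := by
        calc C * ‖u‖ ^ 2 ≤ C * (C * nm F x v) ^ 2 := by gcongr
          _ = C ^ 3 * nm F x v ^ 2 := by ring
      linarith
    · have h1 : η x = 0 := by
        refine (g4 x ?_).2
        by_contra hcon
        push Not at hcon
        exact hx hcon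
      rw [h1]
      change 0 ≤ (0 : ℝ) + _
      positivity
  · have hxR : c x ∈ Metric.closedBall y R := by
      rw [Metric.mem_closedBall]
      linarith
    obtain ⟨u, h1, h2, h3⟩ := key x hx hxR v
    have h4 := ha2 (c x) hxR (Metric.mem_ball.2 hxy) u
    rw [h3]
    have hn : 0 ≤ nm F x v := norm_nonneg _
    have h5 : C * ‖u‖ ^ 2 ≤ C ^ 3 * nm F x v ^ 2 := by
      calc C * ‖u‖ ^ 2 ≤ C * (C * nm F x v) ^ 2 := by gcongr
        _ = C ^ 3 * nm F x v ^ 2 := by ring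
    have h6 : 0 ≤ r ^ (2 - 2 * ε) := Real.rpow_nonneg hr.le _
    calc nm F x v ^ 2 ≤ (C * ‖u‖) ^ 2 := by gcongr
      _ = C ^ 2 * ‖u‖ ^ 2 := by ring
      _ ≤ C ^ 2 * (C * r ^ (2 - 2 * ε) *
          (extDeriv a (c x) ![u, inChart J z (c x) u] + C * ‖u‖ ^ 2)) := by gcongr
      _ = C ^ 3 * r ^ (2 - 2 * ε) *
          (extDeriv a (c x) ![u, inChart J z (c x) u] + C * ‖u‖ ^ 2) := by ring
      _ ≤ C ^ 3 * r ^ (2 - 2 * ε) *
          (extDeriv a (c x) ![u, inChart J z (c x) u] + C ^ 3 * nm F x v ^ 2) := by gcongr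

end

end Pool.Agent.K7.H28.SY
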