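import Pool.Agent.K7.H28.SY.Pot1

/-!
Exact two-forms which are almost positive, and large on a small ball.
-/

set_option autoImplicit false

open Set Filter Topology
open scoped Manifold ContDiff

noncomputable section

namespace Pool.Agent.K7.H28.SY

open Pool.Agent.Y501.SY Pool.Agent.Y484.SY Pool.Agent.Y658.SY

variable {d : ℕ}

/-- cut-off function, equal to one on `s ≤ a` and to zero on `2 a ≤ s` -/
def psi (a s : ℝ) : ℝ := Real.smoothTransition (2 - s / a)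

theorem psi_smooth (a : ℝ) : ContDiff ℝ ∞ (psi a) := by
  unfold psi
  exact Real.smoothTransition.contDiff.comp (contDiff_const.sub (contDiff_id.div_const a))

theorem psi_nonneg (a s : ℝ) : 0 ≤ psi a s := Real.smoothTransition.nonneg _

theorem psi_one {a s : ℝ} (ha : 0 < a) (hs : s ≤ a) : psi a s = 1 := by
  unfold psi
  apply Real.smoothTransition.one_of_one_le
  have : s / a ≤ 1 := (div_le_one ha).2 hs
  linarith

theorem psi_zero {a s : ℝ} (ha : 0 < a) (hs : 2 * a ≤ s) : psi a s = 0 := by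
  unfold psi
  apply Real.smoothTransition.zero_of_nonpos
  have : 2 ≤ s / a := (le_div_iff₀ ha).2 hs
  linarith

theorem dpsi_zero {a s : ℝ} (ha : 0 < a) (hs : 2 * a < s) : deriv (psi a) s = 0 := by
  have h1 : psi a =ᶠ[𝓝 s] fun _ => 0 := by
    filter_upwards [lt_mem_nhds hs] with t ht
    exact psi_zero ha ht.le
  rw [h1.deriv_eq, deriv_const]

theorem dpsi_zero' {a s : ℝ} (ha : 0 < a) (hs : s < a) : deriv (psi a) s = 0 := by
  have h1 : psi a =ᶠ[𝓝 s] fun _ => 1 := by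
    filter_upwards [gt_mem_nhds hs] with t ht
    exact psi_one ha ht.le
  rw [h1.deriv_eq, deriv_const]

theorem dpsi_bound {a : ℝ} (ha : 0 < a) : ∃ D : ℝ, 0 < D ∧ ∀ s, |deriv (psi a) s| ≤ D := by
  have hc : Continuous (deriv (psi a)) := (psi_smooth a).continuous_deriv (by simp)
  obtain ⟨D, hD⟩ := (isCompact_Icc (a := a) (b := 2 * a)).exists_bound_of_continuousOn
    hc.continuousOn
  refine ⟨max D 1, by positivity, fun s => ?_⟩
  by_cases h1 : s < a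
  · rw [dpsi_zero' ha h1, abs_zero]; positivity
  · by_cases h2 : 2 * a < s
    · rw [dpsi_zero ha h2, abs_zero]; positivity
    · push Not at h1 h2
      exact (hD s ⟨h1, h2⟩).trans (le_max_left _ _)

/-- the profile `ψ(s) (s + ρ) ^ (ε - 1)` -/
def hh (a ε ρ s : ℝ) : ℝ := psi a s * (s + ρ) ^ (ε - 1)

theorem hh_smooth {a ε ρ : ℝ} (hρ : 0 < ρ) {s : ℝ} (hs : 0 ≤ s) :
    ContDiffAt ℝ ∞ (hh a ε ρ) s := by
  unfold hh
  refine (psi_smooth a).contDiffAt.mul ?_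
  refine ContDiffAt.rpow_const_of_ne ?_ (by positivity)
  exact contDiffAt_id.add contDiffAt_const

theorem hh_deriv {a ε ρ : ℝ} (hρ : 0 < ρ) {s : ℝ} (hs : 0 ≤ s) :
    HasDerivAt (hh a ε ρ) (deriv (psi a) s * (s + ρ) ^ (ε - 1) +
      psi a s * ((ε - 1) * (s + ρ) ^ (ε - 1 - 1))) s := by
  have h1 : HasDerivAt (psi a) (deriv (psi a) s) s :=
    ((psi_smooth a).contDiffAt.differentiableAt (by simp)).hasDerivAt
  have h2 : HasDerivAt (fun s => s + ρ) 1 s := (hasDerivAt_id s).add_const ρ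
  have h3 := h2.rpow_const (p := ε - 1) (Or.inl (by positivity))
  have h4 := h1.mul h3
  have h5 : deriv (psi a) s * (s + ρ) ^ (ε - 1) +
      psi a s * ((ε - 1) * (s + ρ) ^ (ε - 1 - 1)) = deriv (psi a) s * (s + ρ) ^ (ε - 1) +
      psi a s * (1 * (ε - 1) * (s + ρ) ^ (ε - 1 - 1)) := by ring
  rw [h5]
  exact h4

/-- the bound for the error made by the cut-off -/
theorem cut_bound {a ε ρ D s : ℝ} (ha : 0 < a) (hε : 0 < ε) (hε1 : ε < 1) (hρ : 0 < ρ)
    (hD : ∀ s, |deriv (psi a) s| ≤ D) (hs : 0 ≤ s) :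
    |deriv (psi a) s| * (s + ρ) ^ (ε - 1) * s ≤ D * (2 * a) ^ ε := by
  have hD0 : 0 ≤ D := (abs_nonneg _).trans (hD s)
  have hR : 0 ≤ D * (2 * a) ^ ε := by positivity
  rcases hs.eq_or_lt with h0 | h0
  · rw [← h0, mul_zero]; exact hR
  by_cases h2 : 2 * a < s
  · rw [dpsi_zero ha h2, abs_zero, zero_mul, zero_mul]; exact hR
  push Not at h2
  have h3 : (s + ρ) ^ (ε - 1) ≤ s ^ (ε - 1) :=
    Real.rpow_le_rpow_of_nonpos h0 (by linarith) (by linarith)
  have h4 : s ^ (ε - 1) * s = s ^ ε := by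
    rw [← Real.rpow_add_one h0.ne']
    congr 1; ring
  have h5 : s ^ ε ≤ (2 * a) ^ ε := Real.rpow_le_rpow hs h2 hε.le
  calc |deriv (psi a) s| * (s + ρ) ^ (ε - 1) * s ≤ D * s ^ (ε - 1) * s := by
        gcongr
        exact hD s
    _ = D * s ^ ε := by rw [mul_assoc, h4]
    _ ≤ D * (2 * a) ^ ε := by gcongr

/-- the pointwise estimate -/
theorem pot_pt {L T : E d →L[ℝ] E d} (hL : ∀ u, L (L u) = -u) {M ε a D ρ : ℝ} (hM : ‖L‖ ≤ M)
    (hε : 0 < ε) (hε1 : ε < 1) (ha : 0 < a) (hD : ∀ s, |deriv (psi a) s| ≤ D) (hρ : 0 < ρ)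
    (hT : (1 + M ^ 2) * ‖T - L‖ ^ 2 ≤ (ε / 6) ^ 2) (y p u : E d) :
    2 * ε * (psi a (BJ L (p - y) (p - y)) * (BJ L (p - y) (p - y) + ρ) ^ (ε - 1)) * BJ L u u -
      12 * (D * (2 * a) ^ ε) * BJ L u u ≤ extDeriv (alp L (hh a ε ρ) y) p ![u, T u] := by
  set z := p - y with hz
  set s := BJ L z z with hs
  set N := BJ L u u with hN
  set P := (s + ρ) ^ (ε - 1) with hP
  set ψ := psi a s with hψ
  set ψ' := deriv (psi a) s with hψ'
  have hs0 : 0 ≤ s := BJ_nonneg L z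
  have hN0 : 0 ≤ N := BJ_nonneg L u
  have hP0 : 0 < P := Real.rpow_pos_of_pos (by positivity) _
  have hψ0 : 0 ≤ ψ := psi_nonneg a s
  have hq : 0 < s + ρ := by positivity
  have hder := hh_deriv (a := a) (ε := ε) hρ hs0
  have hP1 : (s + ρ) ^ (ε - 1 - 1) = P / (s + ρ) := by
    rw [Real.rpow_sub_one hq.ne']
  rw [hP1, ← hψ', ← hψ] at hder
  have hcut := cut_bound ha hε hε1 hρ hD hs0
  rw [← hψ', ← hP] at hcut
  obtain ⟨δ, hδ⟩ : ∃ δ, δ = (T - L) u := ⟨_, rfl⟩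
  have hTu : T u = L u + δ := by
    rw [hδ]
    change T u = L u + (T u - L u)
    abel
  set N' := BJ L δ δ with hN'
  have hN'0 : 0 ≤ N' := BJ_nonneg L δ
  have hN'N : N' ≤ (ε / 6) ^ 2 * N := by
    have h1 : ‖δ‖ ≤ ‖T - L‖ * ‖u‖ := by rw [hδ]; exact (T - L).le_opNorm u
    have h2 : ‖δ‖ ^ 2 ≤ ‖T - L‖ ^ 2 * ‖u‖ ^ 2 := by
      rw [← mul_pow]; gcongr
    calc N' ≤ (1 + M ^ 2) * ‖δ‖ ^ 2 := BJ_le hM δ
      _ ≤ (1 + M ^ 2) * (‖T - L‖ ^ 2 * ‖u‖ ^ 2) := by gcongr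
      _ = ((1 + M ^ 2) * ‖T - L‖ ^ 2) * ‖u‖ ^ 2 := by ring
      _ ≤ (ε / 6) ^ 2 * N := by
        gcongr
        exact le_BJ L u
  have hrt : √N' ≤ ε / 6 * √N := by
    have h1 := Real.sqrt_le_sqrt hN'N
    rwa [Real.sqrt_mul (by positivity), Real.sqrt_sq (by positivity)] at h1
  have hNN : √N * √N = N := Real.mul_self_sqrt hN0
  have hss : √s * √s = s := Real.mul_self_sqrt hs0
  have hNN' : √N * √N' ≤ ε / 6 * N := by
    calc √N * √N' ≤ √N * (ε / 6 * √N) := by gcongr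
      _ = ε / 6 * (√N * √N) := by ring
      _ = ε / 6 * N := by rw [hNN]
  -- splitting
  have hsplit : extDeriv (alp L (hh a ε ρ) y) p ![u, T u] =
      extDeriv (alp L (hh a ε ρ) y) p ![u, L u] + extDeriv (alp L (hh a ε ρ) y) p ![u, δ] := by
    rw [hTu]
    have h := (extDeriv (alp L (hh a ε ρ) y) p).toAlternatingMap.map_update_add ![u, L u] 1 (L u) δ
    have e1 : ∀ y' : E d, Function.update ![u, L u] 1 y' = ![u, y'] := by
      intro y'; funext i; fin_cases i <;> simp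
    rw [e1, e1, e1] at h
    exact h
  rw [hsplit, ext_alp hL hder, ext_alp hL hder]
  have eQ : BJ L z (L (L u)) = - BJ L z u := by
    rw [hL]
    have := BJ_smul_right L (-1) z u
    rwa [neg_one_smul, neg_one_mul] at this
  have eN : BJ L u (L (L u)) = - N := by
    rw [hL]
    have := BJ_smul_right L (-1) u u
    rwa [neg_one_smul, neg_one_mul] at this
  rw [← hz, eQ, eN, ← hs]
  have hhh : hh a ε ρ s = ψ * P := rfl
  rw [hhh]
  set X1 := BJ L z u with hX1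
  set X2 := BJ L z (L u) with hX2
  set Y1 := BJ L z (L δ) with hY1
  set Y2 := BJ L z δ with hY2
  set Y3 := BJ L u (L δ) with hY3
  have hbes : X1 ^ 2 + X2 ^ 2 ≤ s * N := BJ_bessel hL z u
  have hNLδ : BJ L (L δ) (L δ) = N' := BJ_LL hL δ δ
  have hNLu : BJ L (L u) (L u) = N := BJ_LL hL u u
  have b1 : |X1| ≤ √s * √N := BJ_cs hL z u
  have b2 : |X2| ≤ √s * √N := by
    have := BJ_cs hL z (L u)
    rwa [hNLu] at this
  have b3 : |Y1| ≤ √s * √N' := by
    have := BJ_cs hL z (L δ)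
    rwa [hNLδ] at this
  have b4 : |Y2| ≤ √s * √N' := BJ_cs hL z δ
  have b5 : |Y3| ≤ √N * √N' := by
    have := BJ_cs hL u (L δ)
    rwa [hNLδ] at this
  have c1 : |X1 * Y1| ≤ s * (√N * √N') := by
    rw [abs_mul]
    calc |X1| * |Y1| ≤ (√s * √N) * (√s * √N') := by gcongr
      _ = (√s * √s) * (√N * √N') := by ring
      _ = s * (√N * √N') := by rw [hss]
  have c2 : |Y2 * X2| ≤ s * (√N * √N') := by
    rw [abs_mul]
    calc |Y2| * |X2| ≤ (√s * √N') * (√s * √N) := by gcongr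
      _ = (√s * √s) * (√N * √N') := by ring
      _ = s * (√N * √N') := by rw [hss]
  have c3 : |X1 * Y1 - Y2 * X2| ≤ 2 * s * (ε / 6 * N) := by
    calc |X1 * Y1 - Y2 * X2| ≤ |X1 * Y1| + |Y2 * X2| := abs_sub _ _
      _ ≤ s * (√N * √N') + s * (√N * √N') := add_le_add c1 c2
      _ = 2 * s * (√N * √N') := by ring
      _ ≤ 2 * s * (ε / 6 * N) := by gcongr
  have c4 : |Y3| ≤ ε / 6 * N := b5.trans hNN'
  -- the derivative of the profile times `s`
  have d1 : P / (s + ρ) * s ≤ P := by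
    rw [div_mul_eq_mul_div, div_le_iff₀ hq]
    have : s ≤ s + ρ := by linarith
    exact mul_le_mul_of_nonneg_left this hP0.le
  have d0 : 0 ≤ P / (s + ρ) := by positivity
  set G := P / (s + ρ) with hG
  set Z := X1 * Y1 - Y2 * X2 with hZ
  set h' := ψ' * P + ψ * ((ε - 1) * G) with hh'
  have e1 : |h'| * s ≤ |ψ'| * P * s + ψ * P := by
    have : |h'| ≤ |ψ'| * P + ψ * G := by
      rw [hh']
      calc |ψ' * P + ψ * ((ε - 1) * G)| ≤ |ψ' * P| + |ψ * ((ε - 1) * G)| := abs_add_le _ _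
        _ = |ψ'| * P + ψ * (|ε - 1| * G) := by
          rw [abs_mul, abs_mul, abs_mul, abs_of_pos hP0, abs_of_nonneg hψ0, abs_of_nonneg d0]
        _ ≤ |ψ'| * P + ψ * (1 * G) := by
          have : |ε - 1| ≤ 1 := by rw [abs_le]; constructor <;> linarith
          gcongr
        _ = |ψ'| * P + ψ * G := by rw [one_mul]
    calc |h'| * s ≤ (|ψ'| * P + ψ * G) * s := by gcongr
      _ = |ψ'| * P * s + ψ * (G * s) := by ring
      _ ≤ |ψ'| * P * s + ψ * P := by gcongr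
  have e2 : |h' * Z| ≤ (|ψ'| * P * s + ψ * P) * (2 * (ε / 6 * N)) := by
    rw [abs_mul]
    calc |h'| * |Z| ≤ |h'| * (2 * s * (ε / 6 * N)) := by gcongr
      _ = (|h'| * s) * (2 * (ε / 6 * N)) := by ring
      _ ≤ _ := by gcongr
  have e3 : |ψ * P * Y3| ≤ ψ * P * (ε / 6 * N) := by
    rw [abs_mul, abs_of_nonneg (by positivity : 0 ≤ ψ * P)]
    gcongr
  -- main part
  set Q := X1 ^ 2 + X2 ^ 2 with hQ
  have hQ0 : 0 ≤ Q := by positivity
  have f1 : ψ * ((1 - ε) * G) * Q ≤ ψ * ((1 - ε) * P) * N := by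
    have : G * Q ≤ P * N := by
      calc G * Q ≤ G * (s * N) := by gcongr
        _ = (G * s) * N := by ring
        _ ≤ P * N := by gcongr
    calc ψ * ((1 - ε) * G) * Q = ψ * (1 - ε) * (G * Q) := by ring
      _ ≤ ψ * (1 - ε) * (P * N) := by
        have : 0 ≤ ψ * (1 - ε) := mul_nonneg hψ0 (by linarith)
        gcongr
      _ = _ := by ring
  have f2 : -(|ψ'| * P * s * N) ≤ ψ' * P * Q := by
    have h1 : |ψ' * P * Q| ≤ |ψ'| * P * s * N := by
      rw [abs_mul, abs_mul, abs_of_pos hP0, abs_of_nonneg hQ0]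
      calc |ψ'| * P * Q ≤ |ψ'| * P * (s * N) := by gcongr
        _ = _ := by ring
    exact (abs_le.1 h1).1
  have g1 : |ψ'| * P * s * N ≤ D * (2 * a) ^ ε * N := by gcongr
  have key1 : -4 * h' * (X1 * -X1 - X2 * X2) - 4 * (ψ * P) * -N = 4 * (h' * Q) + 4 * (ψ * P) * N := by
    rw [hQ]; ring
  rw [key1]
  have key2 : h' * Q = ψ' * P * Q - ψ * ((1 - ε) * G) * Q := by rw [hh']; ring
  rw [key2]
  have k3 := (abs_le.1 e2).2
  have k4 := (abs_le.1 e3).2
  have hψPN : 0 ≤ ψ * P * N := by positivity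
  have hcN : 0 ≤ D * (2 * a) ^ ε * N := le_trans (by positivity) g1
  have hw : (|ψ'| * P * s) * N * (ε / 3) ≤ D * (2 * a) ^ ε * N := by
    calc (|ψ'| * P * s) * N * (ε / 3) ≤ (|ψ'| * P * s) * N * 1 := by
          gcongr
          linarith
      _ ≤ _ := by rw [mul_one]; exact g1
  have hk3 : h' * Z ≤ (|ψ'| * P * s) * N * (ε / 3) + ε / 3 * (ψ * P * N) := by
    refine k3.trans (le_of_eq ?_)
    ring
  have hk4 : ψ * P * Y3 ≤ ε / 6 * (ψ * P * N) := by
    refine k4.trans (le_of_eq ?_)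
    ring
  obtain ⟨t, ht⟩ : ∃ t, t = ψ * P * N := ⟨_, rfl⟩
  obtain ⟨W, hW⟩ : ∃ W, W = |ψ'| * P * s * N := ⟨_, rfl⟩
  have i1 : ψ * ((1 - ε) * P) * N = t - ε * t := by rw [ht]; ring
  have i2 : 2 * ε * (ψ * P) * N = 2 * (ε * t) := by rw [ht]; ring
  have i3 : 4 * (ψ * P) * N = 4 * t := by rw [ht]; ring
  have i4 : -4 * h' * Z - 4 * (ψ * P) * Y3 = -4 * (h' * Z) - 4 * (ψ * P * Y3) := by ring
  rw [← ht] at hk3 hk4 hψPN
  rw [i1] at f1
  rw [i2, i3, i4]
  have hεt : 0 ≤ ε * t := mul_nonneg hε.le hψPN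
  linarith [f1, f2, g1, hk3, hk4, hw, hψPN, hcN, hεt]

end Pool.Agent.K7.H28.SY
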