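import Pool.Agent.K7.H28.SY.Pot2

/-!
Exact two-forms which are almost positive, and large on a small ball: uniform version.
-/

set_option autoImplicit false

open Set Filter Topology
open scoped Manifold ContDiff

noncomputable section

namespace Pool.Agent.K7.H28.SY

open Pool.Agent.Y501.SY Pool.Agent.Y484.SY Pool.Agent.Y658.SY

variable {d : ℕ}

theorem pot {V N : Set (E d)} (hN : IsCompact N) {R : ℝ} (hR : 0 < R)
    (hNR : ∀ y ∈ N, Metric.closedBall y R ⊆ V) {Js : E d → (E d →L[ℝ] E d)}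
    (hJc : ContinuousOn Js V) (hJ2 : ∀ p ∈ V, ∀ u, Js p (Js p u) = -u) {ε : ℝ} (hε : 0 < ε)
    (hε1 : ε < 1) :
    ∃ r₀ C : ℝ, 0 < r₀ ∧ 0 < C ∧ ∀ y ∈ N, ∀ r : ℝ, 0 < r → r ≤ r₀ →
      ∃ α : E d → (E d) [⋀^Fin 1]→L[ℝ] ℝ, ContDiff ℝ ∞ α ∧
        (∀ p, p ∉ Metric.closedBall y R → α p = 0) ∧
        (∀ p ∈ Metric.closedBall y R, ∀ u, -C * ‖u‖ ^ 2 ≤ extDeriv α p ![u, Js p u]) ∧
        ∀ p ∈ Metric.closedBall y R, p ∈ Metric.ball y (3 * r) → ∀ u,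
          ‖u‖ ^ 2 ≤ C * r ^ (2 - 2 * ε) * (extDeriv α p ![u, Js p u] + C * ‖u‖ ^ 2) := by
  have hN' : IsCompact (Metric.cthickening R N) := hN.cthickening
  have hN'V : Metric.cthickening R N ⊆ V := by
    rw [hN.cthickening_eq_biUnion_closedBall hR.le]
    exact iUnion₂_subset hNR
  have hcl : ∀ y ∈ N, Metric.closedBall y R ⊆ Metric.cthickening R N := fun y hy =>
    Metric.closedBall_subset_cthickening hy R
  obtain ⟨M₀, hM₀⟩ := hN'.exists_bound_of_continuousOn (hJc.mono hN'V)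
  set M := max M₀ 1 with hM
  have hMb : ∀ p ∈ Metric.cthickening R N, ‖Js p‖ ≤ M := fun p hp =>
    (hM₀ p hp).trans (le_max_left _ _)
  have hM0 : 0 < M := by positivity
  have huc := hN'.uniformContinuousOn_of_continuous (hJc.mono hN'V)
  rw [Metric.uniformContinuousOn_iff] at huc
  set κ := ε / 6 / (1 + M ^ 2) with hκ
  have hκ0 : 0 < κ := by positivity
  obtain ⟨δ, hδ, huc⟩ := huc κ hκ0
  have hκ2 : (1 + M ^ 2) * κ ^ 2 ≤ (ε / 6) ^ 2 := by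
    rw [hκ, div_pow]
    have h1 : 1 ≤ 1 + M ^ 2 := by nlinarith [sq_nonneg M]
    have h2 : (1 + M ^ 2) * ((ε / 6) ^ 2 / (1 + M ^ 2) ^ 2) = (ε / 6) ^ 2 / (1 + M ^ 2) := by
      field_simp
    rw [h2]
    exact div_le_self (by positivity) h1
  set R₁ := min R δ / 2 with hR₁
  have hR₁0 : 0 < R₁ := by positivity
  have hR₁R : R₁ < R := by
    have : min R δ ≤ R := min_le_left _ _
    rw [hR₁]; linarith
  have hR₁δ : R₁ < δ := by
    have : min R δ ≤ δ := min_le_right _ _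
    rw [hR₁]; linarith
  set a := R₁ ^ 2 / 2 with ha
  have ha0 : 0 < a := by positivity
  obtain ⟨D, hD0, hD⟩ := dpsi_bound ha0
  set C₁ := 12 * (D * (2 * a) ^ ε) * (1 + M ^ 2) with hC₁
  set c₂ := (9 * (1 + M ^ 2) + 1) ^ (ε - 1) with hc₂
  have hc₂0 : 0 < c₂ := Real.rpow_pos_of_pos (by positivity) _
  refine ⟨min 1 (a / (9 * (1 + M ^ 2))), max C₁ (1 / (2 * ε * c₂)), by positivity, by positivity,
    fun y hy r hr hr1 => ?_⟩
  set C := max C₁ (1 / (2 * ε * c₂)) with hC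
  have hyV : y ∈ V := hNR y hy (Metric.mem_closedBall_self hR.le)
  have hyN : y ∈ Metric.cthickening R N := hcl y hy (Metric.mem_closedBall_self hR.le)
  have hL : ∀ u, Js y (Js y u) = -u := hJ2 y hyV
  have hρ : 0 < r ^ 2 := by positivity
  have hsm : ContDiff ℝ ∞ (alp (Js y) (hh a ε (r ^ 2)) y) :=
    contDiff_alp (Js y) (fun s hs => hh_smooth hρ hs) y
  have hsq : ∀ p, ‖p - y‖ ^ 2 ≤ BJ (Js y) (p - y) (p - y) := fun p => le_BJ _ _
  have hzero : ∀ p, R₁ < ‖p - y‖ → alp (Js y) (hh a ε (r ^ 2)) y p = 0 := by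
    intro p hp
    have h1 : 2 * a ≤ BJ (Js y) (p - y) (p - y) := by
      refine le_trans ?_ (hsq p)
      have : 2 * a = R₁ ^ 2 := by rw [ha]; ring
      rw [this]
      gcongr
    unfold alp hh
    rw [psi_zero ha0 h1, zero_mul, zero_smul]
  have hzero2 : ∀ p, R₁ < ‖p - y‖ → extDeriv (alp (Js y) (hh a ε (r ^ 2)) y) p = 0 := by
    intro p hp
    have h1 : alp (Js y) (hh a ε (r ^ 2)) y =ᶠ[𝓝 p] fun _ => 0 := by
      have h2 : ∀ᶠ q in 𝓝 p, R₁ < ‖q - y‖ :=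
        ((continuous_id.sub continuous_const).norm.tendsto p).eventually (lt_mem_nhds hp)
      filter_upwards [h2] with q hq
      exact hzero q hq
    rw [h1.extDeriv_eq]
    unfold extDeriv
    rw [fderiv_fun_const]
    exact map_zero (ContinuousAlternatingMap.alternatizeUncurryFinCLM ℝ (E d) ℝ)
  have hmain : ∀ p, ‖p - y‖ ≤ R₁ → ∀ u,
      2 * ε * (psi a (BJ (Js y) (p - y) (p - y)) *
        (BJ (Js y) (p - y) (p - y) + r ^ 2) ^ (ε - 1)) * ‖u‖ ^ 2 - C₁ * ‖u‖ ^ 2 ≤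
      extDeriv (alp (Js y) (hh a ε (r ^ 2)) y) p ![u, Js p u] := by
    intro p hp u
    have hpN : p ∈ Metric.cthickening R N := by
      refine hcl y hy ?_
      rw [Metric.mem_closedBall, dist_eq_norm]
      linarith
    have hdist : dist p y < δ := by
      rw [dist_eq_norm]; linarith
    have h1 := huc p hpN y hyN hdist
    rw [dist_eq_norm] at h1
    have h2 : (1 + M ^ 2) * ‖Js p - Js y‖ ^ 2 ≤ (ε / 6) ^ 2 := by
      refine le_trans ?_ hκ2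
      gcongr
    have h3 := pot_pt hL (hMb y hyN) hε hε1 ha0 hD hρ h2 y p u
    refine le_trans ?_ h3
    have h4 : 0 ≤ psi a (BJ (Js y) (p - y) (p - y)) *
        (BJ (Js y) (p - y) (p - y) + r ^ 2) ^ (ε - 1) := by
      refine mul_nonneg (psi_nonneg _ _) (Real.rpow_nonneg ?_ _)
      have := BJ_nonneg (Js y) (p - y)
      positivity
    have h5 : ‖u‖ ^ 2 ≤ BJ (Js y) u u := le_BJ _ _
    have h6 : BJ (Js y) u u ≤ (1 + M ^ 2) * ‖u‖ ^ 2 := BJ_le (hMb y hyN) u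
    have h7 : 12 * (D * (2 * a) ^ ε) * BJ (Js y) u u ≤ C₁ * ‖u‖ ^ 2 := by
      calc 12 * (D * (2 * a) ^ ε) * BJ (Js y) u u
          ≤ 12 * (D * (2 * a) ^ ε) * ((1 + M ^ 2) * ‖u‖ ^ 2) := by gcongr
        _ = C₁ * ‖u‖ ^ 2 := by rw [hC₁]; ring
    have h8 : 2 * ε * (psi a (BJ (Js y) (p - y) (p - y)) *
        (BJ (Js y) (p - y) (p - y) + r ^ 2) ^ (ε - 1)) * ‖u‖ ^ 2 ≤
        2 * ε * (psi a (BJ (Js y) (p - y) (p - y)) *
        (BJ (Js y) (p - y) (p - y) + r ^ 2) ^ (ε - 1)) * BJ (Js y) u u := by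
      gcongr
    linarith
  have hCC : C₁ ≤ C := le_max_left _ _
  have hC0 : 0 < C := lt_of_lt_of_le (by positivity) hCC
  refine ⟨alp (Js y) (hh a ε (r ^ 2)) y, hsm, ?_, ?_, ?_⟩
  · intro p hp
    apply hzero
    rw [Metric.mem_closedBall, dist_eq_norm, not_le] at hp
    linarith
  · intro p hp u
    by_cases h : ‖p - y‖ ≤ R₁
    · have h1 := hmain p h u
      have h4 : 0 ≤ psi a (BJ (Js y) (p - y) (p - y)) *
          (BJ (Js y) (p - y) (p - y) + r ^ 2) ^ (ε - 1) := by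
        refine mul_nonneg (psi_nonneg _ _) (Real.rpow_nonneg ?_ _)
        have := BJ_nonneg (Js y) (p - y)
        positivity
      have h5 : C₁ * ‖u‖ ^ 2 ≤ C * ‖u‖ ^ 2 := by gcongr
      have h6 : 0 ≤ 2 * ε * (psi a (BJ (Js y) (p - y) (p - y)) *
          (BJ (Js y) (p - y) (p - y) + r ^ 2) ^ (ε - 1)) * ‖u‖ ^ 2 := by positivity
      linarith
    · push Not at h
      rw [hzero2 p h]
      have : 0 ≤ C * ‖u‖ ^ 2 := by positivity
      change -C * ‖u‖ ^ 2 ≤ 0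
      linarith
  · intro p hp hpb u
    rw [Metric.mem_ball, dist_eq_norm] at hpb
    have hr2 : 9 * (1 + M ^ 2) * r ^ 2 ≤ a := by
      have h1 : r ≤ 1 := hr1.trans (min_le_left _ _)
      have h2 : r ≤ a / (9 * (1 + M ^ 2)) := hr1.trans (min_le_right _ _)
      rw [le_div_iff₀ (by positivity)] at h2
      have h3 : r ^ 2 ≤ r := by nlinarith
      calc 9 * (1 + M ^ 2) * r ^ 2 ≤ 9 * (1 + M ^ 2) * r := by gcongr
        _ = r * (9 * (1 + M ^ 2)) := by ring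
        _ ≤ a := h2
    have hs1 : BJ (Js y) (p - y) (p - y) ≤ 9 * (1 + M ^ 2) * r ^ 2 := by
      calc BJ (Js y) (p - y) (p - y) ≤ (1 + M ^ 2) * ‖p - y‖ ^ 2 := BJ_le (hMb y hyN) _
        _ ≤ (1 + M ^ 2) * (3 * r) ^ 2 := by gcongr
        _ = 9 * (1 + M ^ 2) * r ^ 2 := by ring
    have hsa : BJ (Js y) (p - y) (p - y) ≤ a := hs1.trans hr2
    have hpR : ‖p - y‖ ≤ R₁ := by
      have h1 := (hsq p).trans hsa
      have h2 : ‖p - y‖ ^ 2 ≤ R₁ ^ 2 := by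
        have : a ≤ R₁ ^ 2 := by rw [ha]; nlinarith [sq_nonneg R₁]
        linarith
      exact le_of_sq_le_sq h2 hR₁0.le
    have h1 := hmain p hpR u
    rw [psi_one ha0 hsa, one_mul] at h1
    have hs0 : 0 ≤ BJ (Js y) (p - y) (p - y) := BJ_nonneg _ _
    have h2 : c₂ * r ^ (2 * ε - 2) ≤ (BJ (Js y) (p - y) (p - y) + r ^ 2) ^ (ε - 1) := by
      have h3 : (r ^ 2) ^ (ε - 1) = r ^ (2 * ε - 2) := by
        rw [← Real.rpow_natCast, ← Real.rpow_mul hr.le]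
        congr 1
        push_cast
        ring
      have h4 : BJ (Js y) (p - y) (p - y) + r ^ 2 ≤ (9 * (1 + M ^ 2) + 1) * r ^ 2 := by linarith
      have h5 := Real.rpow_le_rpow_of_nonpos (by positivity) h4 (by linarith : ε - 1 ≤ 0)
      rw [Real.mul_rpow (by positivity) (by positivity), h3] at h5
      exact h5
    have h3 : 2 * ε * (c₂ * r ^ (2 * ε - 2)) * ‖u‖ ^ 2 ≤
        extDeriv (alp (Js y) (hh a ε (r ^ 2)) y) p ![u, Js p u] + C * ‖u‖ ^ 2 := by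
      have h4 : 2 * ε * (c₂ * r ^ (2 * ε - 2)) * ‖u‖ ^ 2 ≤
          2 * ε * (BJ (Js y) (p - y) (p - y) + r ^ 2) ^ (ε - 1) * ‖u‖ ^ 2 := by gcongr
      have h5 : C₁ * ‖u‖ ^ 2 ≤ C * ‖u‖ ^ 2 := by gcongr
      linarith
    have h4 : r ^ (2 * ε - 2) * r ^ (2 - 2 * ε) = 1 := by
      rw [← Real.rpow_add hr]
      have : 2 * ε - 2 + (2 - 2 * ε) = 0 := by ring
      rw [this, Real.rpow_zero]
    have h5 : ‖u‖ ^ 2 = (1 / (2 * ε * c₂)) * r ^ (2 - 2 * ε) *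
        (2 * ε * (c₂ * r ^ (2 * ε - 2)) * ‖u‖ ^ 2) := by
      have : (1 / (2 * ε * c₂)) * r ^ (2 - 2 * ε) *
        (2 * ε * (c₂ * r ^ (2 * ε - 2)) * ‖u‖ ^ 2) = (1 / (2 * ε * c₂)) * (2 * ε * c₂) *
          (r ^ (2 * ε - 2) * r ^ (2 - 2 * ε)) * ‖u‖ ^ 2 := by ring
      rw [this, h4, one_div_mul_cancel (by positivity)]
      ring
    have h6 : 0 ≤ extDeriv (alp (Js y) (hh a ε (r ^ 2)) y) p ![u, Js p u] + C * ‖u‖ ^ 2 :=
      le_trans (by positivity) h3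
    calc ‖u‖ ^ 2 = (1 / (2 * ε * c₂)) * r ^ (2 - 2 * ε) *
        (2 * ε * (c₂ * r ^ (2 * ε - 2)) * ‖u‖ ^ 2) := h5
      _ ≤ (1 / (2 * ε * c₂)) * r ^ (2 - 2 * ε) *
        (extDeriv (alp (Js y) (hh a ε (r ^ 2)) y) p ![u, Js p u] + C * ‖u‖ ^ 2) := by gcongr
      _ ≤ C * r ^ (2 - 2 * ε) *
        (extDeriv (alp (Js y) (hh a ε (r ^ 2)) y) p ![u, Js p u] + C * ‖u‖ ^ 2) := by
        gcongr
        exact le_max_right _ _

end Pool.Agent.K7.H28.SY
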