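import Pool.Agent.Y501.SY.PubV

/-!
Closed two-forms with singular primitives: the definitions used in the statement.
-/

set_option autoImplicit false

open Set Filter Topology
open scoped Manifold ContDiff

noncomputable section

namespace Pool.Agent.K7.H28.SYP

open Pool.Agent.Y501.SYP

variable {V : Type} [NormedAddCommGroup V] [NormedSpace ℝ V]
  {X : Type} [TopologicalSpace X] [ChartedSpace V X]

variable (V) in
/-- Near each of its points `K` is covered, in the chart at this point, by at most `C r ^ (-k)`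
balls of radius `r`, for all small `r` and a constant `C`. -/
def BoxBound (K : Set X) (k : ℝ) : Prop :=
  ∀ x₀ ∈ K, ∃ N ∈ 𝓝 x₀, ∃ C : ℝ, ∀ r : ℝ, 0 < r → r < 1 → ∃ P : Finset V,
    (P.card : ℝ) ≤ C * r ^ (-k) ∧
      chartAt V x₀ '' (K ∩ N ∩ (chartAt V x₀).source) ⊆ ⋃ y ∈ P, Metric.ball y r

/-- Near each point of `K` the norm of `β` is at most `C dist(·, K) ^ (-q)` off `K`, in the chart
at this point, for a constant `C`. -/
def GrowthBound (β : Form V X 1) (K : Set X) (q : ℝ) : Prop :=
  ∀ x₀ ∈ K, ∃ C : ℝ, ∀ᶠ p in 𝓝 (chartAt V x₀ x₀), (chartAt V x₀).symm p ∉ K →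
    ‖pb (chartAt V x₀).symm β p‖ ≤
      C * (Metric.infDist p (chartAt V x₀ '' (K ∩ (chartAt V x₀).source))) ^ (-q)

/-- the points of `K` and the points at which `σ` does not tame `J` -/
def BadSet (σ : Form V X 2) (J : End V X) (K : Set X) : Set X := {x | x ∈ K ∨ ¬ TamesAt σ J x}

end Pool.Agent.K7.H28.SYP
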